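import Pool.Agent.TSX.Stmts
import Pool.Agent.TSR2.COK
import Pool.Agent.TSR2.COS
import Pool.Agent.TSR2.CGN
import Pool.Agent.TSR2.CCB
import Pool.Agent.TSR2.CSI

/-!
# TSX.VCO from the polygon modules of TSR2
-/

set_option autoImplicit false

open scoped RealInnerProductSpace

namespace Pool.Agent.TSR3

open Pool.Agent.TSM Set Filter Topology
open Pool.Agent.TSR (IsOpp)
open Pool.Agent.TSR2 (cnPg CorD)
open Pool.Agent.TSX (CD polC nx)

theorem pol_eq {V : Type} [Fintype V] [DecidableEq V] {n : ℕ} (c : ZMod n → V)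
    (hc : Function.Injective c) (p : V → E3) (v : V) (m : ℕ) (b : ℝ) :
    (polC c m p v 1 b).S = (cnPg p v n c m b).S ∧ (polC c m p v 1 b).p = (cnPg p v n c m b).p ∧
      (polC c m p v 1 b).X = (cnPg p v n c m b).X ∧
      ∀ i ∈ (cnPg p v n c m b).S, (polC c m p v 1 b).s i = (cnPg p v n c m b).s i := by
  classical
  refine ⟨?_, ?_, rfl, ?_⟩
  · unfold polC cnPg
    ext x
    simp only [Finset.mem_insert, Finset.mem_image, Finset.mem_filter, Finset.mem_univ, true_and,
      Finset.mem_map, Function.Embedding.coeFn_mk]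
    constructor
    · rintro (h | ⟨a, ⟨i, h1, h2, h3⟩, h4⟩)
      · exact Or.inl h
      · exact Or.inr ⟨a, ⟨i, h1, h2, h3.symm⟩, h4⟩
    · rintro (h | ⟨a, ⟨i, h1, h2, h3⟩, h4⟩)
      · exact Or.inl h
      · exact Or.inr ⟨a, ⟨i, h1, h2, h3.symm⟩, h4⟩
  · funext x
    cases x with
    | none =>
      show -((1 : ℝ) • (p (c 0) - p v) + b • (p (c m) - p v)) =
        -((p (c 0) - p v) + b • (p (c m) - p v))
      rw [one_smul]
    | some u => rfl
  · intro i hi
    cases i with
    | none => rfl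
    | some u =>
      have hu : ∃ i : ZMod n, c i = u := by
        unfold cnPg at hi
        simp only [Finset.mem_insert, Finset.mem_map, Finset.mem_filter, Finset.mem_univ, true_and,
          Function.Embedding.coeFn_mk] at hi
        rcases hi with h | ⟨a, ⟨i, -, -, h3⟩, h4⟩
        · exact absurd h (by simp)
        · exact ⟨i, h3.trans (Option.some.inj h4)⟩
      show (if u = c 0 then none else some (nx c u)) =
        if u = c 0 then none else if h : ∃ i, c i = u then some (c (h.choose + 1)) else none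
      by_cases h0 : u = c 0
      · rw [if_pos h0, if_pos h0]
      · rw [if_neg h0, if_neg h0, dif_pos hu]
        have e1 : c hu.choose = u := hu.choose_spec
        haveI : Nonempty (ZMod n) := ⟨0⟩
        have e2 : Function.invFun c u = hu.choose := by
          apply hc
          rw [Function.invFun_eq hu, e1]
        unfold nx
        rw [e2]

theorem face_eq {V : Type} [DecidableEq V] {L L' : Pg V} (hp : L.p = L'.p) {i : V}
    (hs : L.s i = L'.s i) : L.face i = L'.face i := by
  unfold Pg.face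
  rw [hs, hp]

/-- `Ok` only depends on the values on `S` -/
theorem ok_congr {V : Type} [DecidableEq V] {L L' : Pg V} (h : L'.Ok) (hS : L.S = L'.S)
    (hp : L.p = L'.p) (hX : L.X = L'.X) (hs : ∀ i ∈ L'.S, L.s i = L'.s i) : L.Ok := by
  have hsm : ∀ m, m ∈ L'.S → L.s m = L'.s m := hs
  have hnor : ∀ i ∈ L'.S, L.nor i = L'.nor i := fun i hi => by
    unfold Pg.nor; rw [hs i hi, hp]
  have hmem : ∀ m, L'.X = some m → m ∈ L'.S := by
    intro m hm
    rcases h.kind with ⟨h1, -⟩ | ⟨m', h1, h2⟩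
    · rw [hm] at h1; exact absurd h1 (by simp)
    · rw [hm] at h1
      rw [Option.some.inj h1]; exact h2.1
  have hflat : ∀ i j k, L.Flat i j k ↔ L'.Flat i j k := by
    intro i j k
    unfold Pg.Flat
    constructor
    · rintro ⟨m, q, h1, h2, h3, h4⟩
      rw [hX] at h1
      rw [hS] at h2
      rw [hs q h2] at h3
      rw [hs m (hmem m h1)] at h4
      exact ⟨m, q, h1, h2, h3, h4⟩
    · rintro ⟨m, q, h1, h2, h3, h4⟩
      refine ⟨m, q, by rw [hX]; exact h1, by rw [hS]; exact h2, by rw [hs q h2]; exact h3, ?_⟩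
      rw [hs m (hmem m h1)]; exact h4
  refine ⟨?_, ?_, ?_, ?_, ?_, ?_, ?_⟩
  · intro i hi
    rw [hS] at hi ⊢
    rw [hs i hi]; exact h.maps i hi
  · intro i hi j hj hij
    rw [hS] at hi hj
    rw [hs i hi, hs j hj] at hij
    exact h.inj i hi j hj hij
  · intro i hi j hj
    rw [hS] at hi hj
    obtain ⟨k, hk⟩ := h.trans i hi j hj
    refine ⟨k, ?_⟩
    have key : ∀ k, L.s^[k] i = L'.s^[k] i ∧ L'.s^[k] i ∈ L'.S := by
      intro k
      induction k with
      | zero => exact ⟨rfl, hi⟩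
      | succ k ih =>
        rw [Function.iterate_succ_apply', Function.iterate_succ_apply', ih.1]
        exact ⟨hs _ ih.2, h.maps _ ih.2⟩
    rw [(key k).1, hk]
  · rw [hS]; exact h.card
  · intro i hi j hj k hk hij hik hjk hf
    rw [hS] at hi hj hk
    rw [hp]
    exact h.gen i hi j hj k hk hij hik hjk (fun hf' => hf ((hflat i j k).2 hf'))
  · intro i hi j hj hij x hx hx'
    rw [hS] at hi hj
    rw [face_eq hp (hs i hi)] at hx
    rw [face_eq hp (hs j hj)] at hx'
    rw [hs i hi, hs j hj, hp]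
    exact h.simple i hi j hj hij x hx hx'
  · rcases h.kind with ⟨h1, h2⟩ | ⟨m, h1, h2⟩
    · left
      refine ⟨by rw [hX]; exact h1, ?_⟩
      rw [hS, hp]; exact h2
    · right
      refine ⟨m, by rw [hX]; exact h1, ?_⟩
      obtain ⟨g1, q, g2, g3, ⟨a, b, ha, hb, g4⟩, σ, g5, g6⟩ := h2
      refine ⟨by rw [hS]; exact g1, q, by rw [hS]; exact g2, by rw [hs q g2]; exact g3,
        ⟨a, b, ha, hb, by rw [hp, hs m g1]; exact g4⟩, σ, g5, ?_⟩
      intro i hi hiq him him'
      rw [hS] at hi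
      rw [hs m g1] at him'
      rw [hnor m g1, hp]
      exact g6 i hi hiq him him'

theorem vco_proof : TSX.Stmt_VCO := by
  intro V _ _ K p Φ op v φ n c m hfr hop hd
  have hd' : CorD K p Φ v φ n c m := by
    refine ⟨hd.mem, hd.zero, hd.other, hd.link, hd.m2, hd.mn, hd.flat, hd.below, hd.ind, hd.sec⟩
  obtain ⟨-, b, hb, hdet⟩ := TSR2.cgn_proof V K p Φ v φ n c m hfr hd'
  have hok := TSR2.cok_proof (TSR2.cos_proof TSR2.csi_proof TSR2.ccb_proof TSR2.cgn_proof)
    TSR2.cgn_proof TSR2.ccb_proof V K p Φ v φ n c m b hfr hd' hb hdet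
  obtain ⟨h1, h2, h3, h4⟩ := pol_eq c hd.link.2.1 p v m b
  exact ⟨1, b, one_pos, hb, ok_congr hok h1 h2 h3 h4⟩

end Pool.Agent.TSR3
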