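import Pool.Agent.TSR3.StmtsW

/-!
# TSR3, module GAE: extension of the equation at an arm
-/

set_option autoImplicit false

open scoped RealInnerProductSpace

namespace Pool.Agent.TSR3

open Pool.Agent.TSM Set Filter Topology
open Pool.Agent.TSR (Fac IsOpp Nf Ft Flag n0 P0 Dl eE cutf sg bT InT nE CoreMap NearV EHalf eV
  Stmt_FLG Stmt_BTV Stmt_BTS Stmt_VTX)
open Pool.Agent.TSR2 (Dic scl OZ)

namespace GAE_

/-- uniform constants for finitely many conditions -/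
theorem unif {ι : Type} (S : Finset ι) (Q : ι → ℝ → ℝ → Prop)
    (hm : ∀ i (η R η' R' : ℝ), η' ≤ η → R ≤ R' → Q i η R → Q i η' R')
    (h : ∀ i ∈ S, ∃ η R : ℝ, 0 < η ∧ 0 < R ∧ Q i η R) :
    ∃ η R : ℝ, 0 < η ∧ 0 < R ∧ ∀ i ∈ S, Q i η R := by
  classical
  induction S using Finset.induction_on with
  | empty => exact ⟨1, 1, one_pos, one_pos, fun i hi => absurd hi (Finset.notMem_empty i)⟩
  | insert a S _ ih =>
    obtain ⟨η, R, hη, hR, hQ⟩ := ih (fun i hi => h i (Finset.mem_insert_of_mem hi))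
    obtain ⟨η', R', hη', hR', hQ'⟩ := h a (Finset.mem_insert_self a S)
    refine ⟨min η η', max R R', lt_min hη hη', lt_of_lt_of_le hR (le_max_left _ _), ?_⟩
    intro i hi
    rcases Finset.mem_insert.1 hi with rfl | hi
    · exact hm _ _ _ _ _ (min_le_right _ _) (le_max_right _ _) hQ'
    · exact hm _ _ _ _ _ (min_le_left _ _) (le_max_left _ _) (hQ i hi)

/-- the condition for one pair of planes -/
def Cd (n0 ν p q e : E3) (σ τ o0 o1 η R : ℝ) : Prop :=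
  ∀ Z0 Z : Aff, ‖Z0.1 - n0‖ < η → |Z0.2 - o0| < η → ‖Z.1 - ν‖ < η → |Z.2 - o1| < η →
    ∀ a c s : ℝ, 0 ≤ a → 0 ≤ c → τ * c ≤ a → a ≤ 1 / 4 * c → R ≤ a + c →
    ev Z0 (a • p + c • q - s • e) = 0 → 0 ≤ σ * ev Z (a • p + c • q - s • e)

theorem Cd.mono {n0 ν p q e : E3} {σ τ o0 o1 η R η' R' : ℝ} (h1 : η' ≤ η) (h2 : R ≤ R')
    (h : Cd n0 ν p q e σ τ o0 o1 η R) : Cd n0 ν p q e σ τ o0 o1 η' R' := by
  intro Z0 Z a1 a2 a3 a4 a c s b1 b2 b3 b4 b5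
  exact h Z0 Z (a1.trans_le h1) (a2.trans_le h1) (a3.trans_le h1) (a4.trans_le h1) a c s b1 b2 b3
    b4 (h2.trans b5)

theorem inner_close {u v x : E3} {η : ℝ} (h : ‖u - v‖ < η) :
    |(⟪u, x⟫ : ℝ) - ⟪v, x⟫| ≤ η * ‖x‖ := by
  rw [← inner_sub_left]
  exact (abs_real_inner_le_norm _ _).trans (mul_le_mul_of_nonneg_right h.le (norm_nonneg _))

theorem exists_Cd (n0 ν p q e : E3) (σ τ o0 o1 : ℝ) (hσ : σ = 1 ∨ σ = -1)
    (hp : ⟪n0, p⟫ = 0) (hq : ⟪n0, q⟫ = 0) (he : 0 < ⟪n0, e⟫) (hν : 0 < σ * ⟪ν, q + τ • p⟫)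
    (hνp : 0 ≤ σ * ⟪ν, p⟫) :
    ∃ η R : ℝ, 0 < η ∧ 0 < R ∧ Cd n0 ν p q e σ τ o0 o1 η R := by
  obtain ⟨g, hg⟩ : ∃ g : ℝ, g = ⟪n0, e⟫ := ⟨_, rfl⟩
  obtain ⟨κ, hκ⟩ : ∃ κ : ℝ, κ = σ * ⟪ν, q + τ • p⟫ := ⟨_, rfl⟩
  rw [← hg] at he
  rw [← hκ] at hν
  have hH : 0 < ‖p‖ + ‖q‖ + 1 := by positivity
  obtain ⟨H, hHd⟩ : ∃ H : ℝ, H = ‖p‖ + ‖q‖ + 1 := ⟨_, rfl⟩
  rw [← hHd] at hH
  have hE : 0 < ‖e‖ + 1 := by positivity
  obtain ⟨E, hEd⟩ : ∃ E : ℝ, E = ‖e‖ + 1 := ⟨_, rfl⟩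
  rw [← hEd] at hE
  have hM : 0 < (‖ν‖ + 1) * E := by positivity
  obtain ⟨M, hMd⟩ : ∃ M : ℝ, M = (‖ν‖ + 1) * E := ⟨_, rfl⟩
  rw [← hMd] at hM
  have hK1 : 0 < H * (1 + 2 / g * M) := by positivity
  have hK2 : 0 < |o1| + 1 + 2 / g * (|o0| + 1) * M := by positivity
  obtain ⟨K1, hK1d⟩ : ∃ K : ℝ, K = H * (1 + 2 / g * M) := ⟨_, rfl⟩
  obtain ⟨K2, hK2d⟩ : ∃ K : ℝ, K = |o1| + 1 + 2 / g * (|o0| + 1) * M := ⟨_, rfl⟩
  rw [← hK1d] at hK1
  rw [← hK2d] at hK2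
  refine ⟨min (min 1 (g / 2 / E)) (2 / 5 * κ / K1), K2 / (2 / 5 * κ), by positivity,
    by positivity, ?_⟩
  intro Z0 Z h1 h2 h3 h4 a c s ha hc hτ hac hR hev
  obtain ⟨η, hηd⟩ : ∃ η : ℝ, η = min (min 1 (g / 2 / E)) (2 / 5 * κ / K1) := ⟨_, rfl⟩
  rw [← hηd] at h1 h2 h3 h4
  have hη0 : 0 < η := by rw [hηd]; positivity
  have hη1 : η ≤ 1 := by rw [hηd]; exact (min_le_left _ _).trans (min_le_left _ _)
  have hη2 : η * E ≤ g / 2 := by
    have : η ≤ g / 2 / E := by rw [hηd]; exact (min_le_left _ _).trans (min_le_right _ _)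
    rwa [le_div_iff₀ hE] at this
  have hη3 : η * K1 ≤ 2 / 5 * κ := by
    have : η ≤ 2 / 5 * κ / K1 := by rw [hηd]; exact min_le_right _ _
    rwa [le_div_iff₀ hK1] at this
  have hT : K2 ≤ (a + c) * (2 / 5 * κ) := by
    rwa [div_le_iff₀ (by positivity)] at hR
  -- size of x
  obtain ⟨x, hx⟩ : ∃ x : E3, x = a • p + c • q := ⟨_, rfl⟩
  rw [← hx] at hev ⊢
  have hxn : ‖x‖ ≤ (a + c) * H := by
    rw [hx, hHd]
    calc ‖a • p + c • q‖ ≤ ‖a • p‖ + ‖c • q‖ := norm_add_le _ _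
      _ = a * ‖p‖ + c * ‖q‖ := by
        rw [norm_smul, norm_smul, Real.norm_of_nonneg ha, Real.norm_of_nonneg hc]
      _ ≤ (a + c) * (‖p‖ + ‖q‖ + 1) := by
        nlinarith [mul_nonneg ha (norm_nonneg q), mul_nonneg hc (norm_nonneg p)]
  have hx0 : ⟪n0, x⟫ = 0 := by
    rw [hx, inner_add_right, inner_smul_right, inner_smul_right, hp, hq]; ring
  -- slope
  have hslope : g / 2 ≤ ⟪Z0.1, e⟫ := by
    have := inner_close (x := e) h1
    rw [← hg] at this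
    have h5 := (abs_le.1 this).1
    have h6 : η * ‖e‖ ≤ η * E := by rw [hEd]; nlinarith
    linarith
  have hslope0 : 0 < ⟪Z0.1, e⟫ := by linarith
  have hevx : |ev Z0 x| ≤ η * ((a + c) * H) + |o0| + 1 := by
    have h5 := inner_close (x := x) h1
    rw [hx0, sub_zero] at h5
    have h6 : η * ‖x‖ ≤ η * ((a + c) * H) := mul_le_mul_of_nonneg_left hxn hη0.le
    have h7 : |Z0.2| ≤ |o0| + 1 := by
      have : |Z0.2| ≤ |Z0.2 - o0| + |o0| := by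
        have := abs_add_le (Z0.2 - o0) o0
        rwa [sub_add_cancel] at this
      linarith
    have h8 : |ev Z0 x| ≤ |(⟪Z0.1, x⟫ : ℝ)| + |Z0.2| := by
      unfold ev; exact abs_sub _ _
    linarith
  have hs : |s| ≤ 2 / g * (η * ((a + c) * H) + |o0| + 1) := by
    have h5 : ev Z0 x = s * ⟪Z0.1, e⟫ := by
      have : ev Z0 (x - s • e) = ev Z0 x - s * ⟪Z0.1, e⟫ := by
        unfold ev; rw [inner_sub_right, inner_smul_right]; ring
      rw [this] at hev; linarith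
    have h6 : |s| * (g / 2) ≤ |ev Z0 x| := by
      rw [h5, abs_mul, abs_of_pos hslope0]
      exact mul_le_mul_of_nonneg_left hslope (abs_nonneg _)
    have h7 : |s| * (g / 2) ≤ η * ((a + c) * H) + |o0| + 1 := h6.trans hevx
    have h8 : |s| = 2 / g * (|s| * (g / 2)) := by field_simp
    rw [h8]
    exact mul_le_mul_of_nonneg_left h7 (by positivity)
  -- the other plane
  have hσa : |σ| = 1 := by rcases hσ with rfl | rfl <;> simp
  have hx1 : 4 / 5 * (a + c) * κ ≤ σ * ⟪ν, x⟫ := by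
    have h5 : σ * ⟪ν, x⟫ = c * κ + (a - τ * c) * (σ * ⟪ν, p⟫) := by
      rw [hx, hκ, inner_add_right, inner_smul_right, inner_smul_right, inner_add_right,
        inner_smul_right]
      ring
    rw [h5]
    have h6 : 0 ≤ (a - τ * c) * (σ * ⟪ν, p⟫) := mul_nonneg (by linarith) hνp
    have h7 : 4 / 5 * (a + c) ≤ c := by linarith
    have h8 : 4 / 5 * (a + c) * κ ≤ c * κ := mul_le_mul_of_nonneg_right h7 hν.le
    linarith
  have hx2 : 4 / 5 * (a + c) * κ - η * ((a + c) * H) ≤ σ * ⟪Z.1, x⟫ := by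
    have h5 := inner_close (x := x) h3
    have h6 : η * ‖x‖ ≤ η * ((a + c) * H) := mul_le_mul_of_nonneg_left hxn hη0.le
    have h7 : |σ * ((⟪Z.1, x⟫ : ℝ) - ⟪ν, x⟫)| ≤ η * ((a + c) * H) := by
      rw [abs_mul, hσa, one_mul]; exact h5.trans h6
    have h8 := (abs_le.1 h7).1
    have h9 : σ * ((⟪Z.1, x⟫ : ℝ) - ⟪ν, x⟫) = σ * ⟪Z.1, x⟫ - σ * ⟪ν, x⟫ := by ring
    rw [h9] at h8
    linarith
  have hx3 : |σ * Z.2| ≤ |o1| + 1 := by
    rw [abs_mul, hσa, one_mul]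
    have : |Z.2| ≤ |Z.2 - o1| + |o1| := by
      have := abs_add_le (Z.2 - o1) o1
      rwa [sub_add_cancel] at this
    linarith
  have hx4 : |(⟪Z.1, e⟫ : ℝ)| ≤ M := by
    have h5 : ‖Z.1‖ ≤ ‖ν‖ + 1 := by
      have : ‖Z.1‖ ≤ ‖Z.1 - ν‖ + ‖ν‖ := by
        have := norm_add_le (Z.1 - ν) ν
        rwa [sub_add_cancel] at this
      linarith
    calc |(⟪Z.1, e⟫ : ℝ)| ≤ ‖Z.1‖ * ‖e‖ := abs_real_inner_le_norm _ _
      _ ≤ (‖ν‖ + 1) * E := by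
        apply mul_le_mul h5 _ (norm_nonneg _) (by positivity)
        rw [hEd]; linarith
      _ = M := hMd.symm
  have hx5 : |σ * (s * ⟪Z.1, e⟫)| ≤ 2 / g * (η * ((a + c) * H) + |o0| + 1) * M := by
    rw [abs_mul, hσa, one_mul, abs_mul]
    exact mul_le_mul hs hx4 (abs_nonneg _) (by positivity)
  have hfin : σ * ev Z (x - s • e) = σ * ⟪Z.1, x⟫ - σ * Z.2 - σ * (s * ⟪Z.1, e⟫) := by
    unfold ev; rw [inner_sub_right, inner_smul_right]; ring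
  rw [hfin]
  have h5 := (abs_le.1 hx3).2
  have h6 := (abs_le.1 hx5).2
  have h7 : (a + c) * (η * K1) ≤ (a + c) * (2 / 5 * κ) :=
    mul_le_mul_of_nonneg_left hη3 (by linarith)
  have h8 : η * ((a + c) * H) + 2 / g * (η * ((a + c) * H) + |o0| + 1) * M + (|o1| + 1) =
      (a + c) * (η * K1) + K2 := by
    rw [hK1d, hK2d]; ring
  nlinarith

variable {W : Type} [DecidableEq W]

/-- the conditions at the arm `s i` -/
def Qi (L : Pg W) (e : W → E3) (τ : ℝ) (Ch : W → Finset ℕ) (N : ℕ → E3) (o : W → ℝ)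
    (oN : ℕ → ℝ) (i : W) (η R : ℝ) : Prop :=
  L.turn i ≠ 0 →
    Cd (L.nor i) (L.nor (L.s i)) (L.p i) (L.p (L.s i)) (e (L.s i)) (Real.sign (L.turn i)) τ
      (o i) (o (L.s i)) η R ∧
    Cd (L.nor (L.s i)) (L.nor i) (L.p (L.s (L.s i))) (L.p (L.s i)) (e (L.s i))
      (Real.sign (L.turn i)) τ (o (L.s i)) (o i) η R ∧
    ∀ n ∈ Ch (L.s i),
      Cd (L.nor i) (N n) (L.p i) (L.p (L.s i)) (e (L.s i)) (Real.sign (L.turn i)) τ
        (o i) (oN n) η R ∧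
      Cd (L.nor (L.s i)) (N n) (L.p (L.s (L.s i))) (L.p (L.s i)) (e (L.s i))
        (Real.sign (L.turn i)) τ (o (L.s i)) (oN n) η R

theorem Qi.mono (L : Pg W) (e : W → E3) (τ : ℝ) (Ch : W → Finset ℕ) (N : ℕ → E3) (o : W → ℝ)
    (oN : ℕ → ℝ) (i : W) (η R η' R' : ℝ) (h1 : η' ≤ η) (h2 : R ≤ R')
    (h : Qi L e τ Ch N o oN i η R) : Qi L e τ Ch N o oN i η' R' := by
  intro ht
  obtain ⟨a1, a2, a3⟩ := h ht
  exact ⟨a1.mono h1 h2, a2.mono h1 h2, fun n hn =>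
    ⟨(a3 n hn).1.mono h1 h2, (a3 n hn).2.mono h1 h2⟩⟩

theorem inner_nor (L : Pg W) (i : W) (x : E3) :
    (⟪L.nor i, x⟫ : ℝ) = det3 (L.p i) (L.p (L.s i)) x := by
  unfold Pg.nor
  exact TSR2.inner_crs _ _ _

theorem exists_Qi (L : Pg W) (e : W → E3) (μ τ : ℝ) (Ch : W → Finset ℕ) (N : ℕ → E3)
    (o : W → ℝ) (oN : ℕ → ℝ) (hE : PosE L e) (hτ : 0 < τ) (hC : L.CondG μ τ Ch N) (i : W)
    (hi : i ∈ L.S) : ∃ η R : ℝ, 0 < η ∧ 0 < R ∧ Qi L e τ Ch N o oN i η R := by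
  by_cases ht : L.turn i = 0
  · exact ⟨1, 1, one_pos, one_pos, fun h => absurd ht h⟩
  obtain ⟨hσ, hσt⟩ : (Real.sign (L.turn i) = 1 ∨ Real.sign (L.turn i) = -1) ∧
      0 < Real.sign (L.turn i) * L.turn i := by
    rcases lt_or_gt_of_ne ht with h | h
    · rw [Real.sign_of_neg h]; exact ⟨Or.inr rfl, by linarith⟩
    · rw [Real.sign_of_pos h]; exact ⟨Or.inl rfl, by linarith⟩
  have c1 : (⟪L.nor i, L.p i⟫ : ℝ) = 0 := by rw [inner_nor]; unfold det3; ring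
  have c2 : (⟪L.nor i, L.p (L.s i)⟫ : ℝ) = 0 := by rw [inner_nor]; unfold det3; ring
  have c3 : (⟪L.nor (L.s i), L.p (L.s (L.s i))⟫ : ℝ) = 0 := by
    rw [inner_nor]; unfold det3; ring
  have c4 : (⟪L.nor (L.s i), L.p (L.s i)⟫ : ℝ) = 0 := by rw [inner_nor]; unfold det3; ring
  have c5 : (⟪L.nor (L.s i), L.p i⟫ : ℝ) = L.turn i := by
    rw [inner_nor]; unfold Pg.turn det3; ring
  have c6 : (⟪L.nor i, L.p (L.s (L.s i))⟫ : ℝ) = L.turn i := by rw [inner_nor]; rfl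
  obtain ⟨η1, R1, hη1, hR1, k1⟩ := exists_Cd (L.nor i) (L.nor (L.s i)) (L.p i) (L.p (L.s i))
    (e (L.s i)) (Real.sign (L.turn i)) τ (o i) (o (L.s i)) hσ c1 c2 (hE i hi).1
    (by rw [inner_add_right, inner_smul_right, c4, c5]; nlinarith [mul_pos hτ hσt])
    (by rw [c5]; exact hσt.le)
  obtain ⟨η2, R2, hη2, hR2, k2⟩ := exists_Cd (L.nor (L.s i)) (L.nor i) (L.p (L.s (L.s i)))
    (L.p (L.s i)) (e (L.s i)) (Real.sign (L.turn i)) τ (o (L.s i)) (o i) hσ c3 c4 (hE i hi).2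
    (by rw [inner_add_right, inner_smul_right, c2, c6]; nlinarith [mul_pos hτ hσt])
    (by rw [c6]; exact hσt.le)
  obtain ⟨_, hCh, _⟩ := hC i hi
  obtain ⟨η3, R3, hη3, hR3, k3⟩ := unif (Ch (L.s i)) (fun n η R =>
      Cd (L.nor i) (N n) (L.p i) (L.p (L.s i)) (e (L.s i)) (Real.sign (L.turn i)) τ
        (o i) (oN n) η R) (fun n η R η' R' h1 h2 h => Cd.mono h1 h2 h) (by
    intro n hn
    obtain ⟨b1, b2, b3, _⟩ := hCh n hn
    refine exists_Cd _ _ _ _ _ _ _ _ _ hσ c1 c2 (hE i hi).1 b2 ?_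
    rw [inner_add_right, inner_smul_right] at b2
    by_contra hneg
    push Not at hneg
    nlinarith [mul_pos hτ (neg_pos.2 hneg)])
  obtain ⟨η4, R4, hη4, hR4, k4⟩ := unif (Ch (L.s i)) (fun n η R =>
      Cd (L.nor (L.s i)) (N n) (L.p (L.s (L.s i))) (L.p (L.s i)) (e (L.s i))
        (Real.sign (L.turn i)) τ (o (L.s i)) (oN n) η R)
      (fun n η R η' R' h1 h2 h => Cd.mono h1 h2 h) (by
    intro n hn
    obtain ⟨b1, b2, b3, _⟩ := hCh n hn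
    refine exists_Cd _ _ _ _ _ _ _ _ _ hσ c3 c4 (hE i hi).2 b3 ?_
    rw [inner_add_right, inner_smul_right] at b3
    by_contra hneg
    push Not at hneg
    nlinarith [mul_pos hτ (neg_pos.2 hneg)])
  refine ⟨min (min η1 η2) (min η3 η4), max (max R1 R2) (max R3 R4),
    lt_min (lt_min hη1 hη2) (lt_min hη3 hη4),
    lt_of_lt_of_le hR1 ((le_max_left _ _).trans (le_max_left _ _)), ?_⟩
  intro _
  refine ⟨k1.mono ((min_le_left _ _).trans (min_le_left _ _))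
    ((le_max_left _ _).trans (le_max_left _ _)),
    k2.mono ((min_le_left _ _).trans (min_le_right _ _))
    ((le_max_right _ _).trans (le_max_left _ _)), ?_⟩
  intro n hn
  exact ⟨(k3 n hn).mono ((min_le_right _ _).trans (min_le_left _ _))
    ((le_max_left _ _).trans (le_max_right _ _)),
    (k4 n hn).mono ((min_le_right _ _).trans (min_le_right _ _))
    ((le_max_right _ _).trans (le_max_right _ _))⟩

end GAE_

open GAE_ in
theorem gae_proof (_ : Stmt_GNR) : Stmt_GAE := by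
  intro W _ L e μ τ Ch N o oN hL hE _ hτ hC
  obtain ⟨η, R, hη, hR, hQ⟩ := unif L.S (Qi L e τ Ch N o oN)
    (fun i η R η' R' h1 h2 h => Qi.mono L e τ Ch N o oN i η R η' R' h1 h2 h)
    (fun i hi => exists_Qi L e μ τ Ch N o oN hE hτ hC i hi)
  refine ⟨η, R, hη, hR, ?_⟩
  intro A B hN i hi ht a c s ha hc hac1 hac2 hRac
  obtain ⟨n1, n2, _⟩ := hN
  obtain ⟨q1, q2, q3⟩ := hQ i hi ht
  have hsi := hL.maps i hi
  obtain ⟨a1, a2⟩ := n1 i hi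
  obtain ⟨a3, a4⟩ := n1 (L.s i) hsi
  constructor
  · intro h0
    refine ⟨?_, A i, Or.inl rfl, h0⟩
    rintro Z (rfl | rfl | ⟨n, hn, rfl⟩)
    · rw [h0, mul_zero]
    · exact q1 (A i) (A (L.s i)) a1 a2 a3 a4 a c s ha hc hac1 hac2 hRac h0
    · obtain ⟨a5, a6⟩ := n2 (L.s i) hsi n hn
      exact (q3 n hn).1 (A i) (B n) a1 a2 a5 a6 a c s ha hc hac1 hac2 hRac h0
  · intro h0
    refine ⟨?_, A (L.s i), Or.inr (Or.inl rfl), h0⟩
    rintro Z (rfl | rfl | ⟨n, hn, rfl⟩)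
    · exact q2 (A (L.s i)) (A i) a3 a4 a1 a2 a c s ha hc hac1 hac2 hRac h0
    · rw [h0, mul_zero]
    · obtain ⟨a5, a6⟩ := n2 (L.s i) hsi n hn
      exact (q3 n hn).2 (A (L.s i)) (B n) a3 a4 a5 a6 a c s ha hc hac1 hac2 hRac h0

end Pool.Agent.TSR3
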