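import Pool.Agent.TSR3.StmtsW

set_option autoImplicit false

open scoped RealInnerProductSpace

namespace Pool.Agent.TSR3

open Pool.Agent.TSM Set Filter Topology
open Pool.Agent.TSR (Fac IsOpp Nf Ft Flag n0 P0 Dl eE cutf sg bT InT nE CoreMap NearV EHalf eV
  Stmt_FLG Stmt_BTV Stmt_BTS Stmt_VTX)
open Pool.Agent.TSR2 (Dic scl OZ)

namespace GNR_

variable {W : Type} [DecidableEq W]

/-- the first three labels of an orbit are not closed under the successor -/
lemma no3 {L : Pg W} (hL : L.Ok) {i : W} (hi : i ∈ L.S)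
    (h : L.s (L.s (L.s i)) ∈ ({i, L.s i, L.s (L.s i)} : Finset W)) : False := by
  have h1 : ∀ m : ℕ, L.s^[m] i ∈ ({i, L.s i, L.s (L.s i)} : Finset W) := by
    intro m
    induction m with
    | zero => simp
    | succ m ih =>
      rw [Function.iterate_succ_apply']
      simp only [Finset.mem_insert, Finset.mem_singleton] at ih
      rcases ih with e | e | e
      · rw [e]
        simp
      · rw [e]
        simp
      · rw [e]
        exact h
  have h2 : L.S ⊆ ({i, L.s i, L.s (L.s i)} : Finset W) := by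
    intro j hj
    obtain ⟨m, hm⟩ := hL.trans i hi j hj
    rw [← hm]
    exact h1 m
  have h3 := Finset.card_le_card h2
  have h4 : ({i, L.s i, L.s (L.s i)} : Finset W).card ≤ 3 := Finset.card_le_three
  have h5 := hL.card
  omega

lemma cyc1 {L : Pg W} (hL : L.Ok) {i : W} (hi : i ∈ L.S) : L.s i ≠ i := by
  intro h
  apply no3 hL hi
  rw [h, h, h]
  simp

lemma cyc2 {L : Pg W} (hL : L.Ok) {i : W} (hi : i ∈ L.S) : L.s (L.s i) ≠ i := by
  intro h
  apply no3 hL hi
  rw [h]
  simp

lemma cyc3 {L : Pg W} (hL : L.Ok) {i : W} (hi : i ∈ L.S) : L.s (L.s (L.s i)) ≠ i := by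
  intro h
  apply no3 hL hi
  rw [h]
  simp

lemma pred {L : Pg W} (hL : L.Ok) {i : W} (hi : i ∈ L.S) : ∃ j ∈ L.S, L.s j = i := by
  have h1 : L.S.image L.s = L.S := by
    apply Finset.eq_of_subset_of_card_le
    · intro x hx
      obtain ⟨y, hy, rfl⟩ := Finset.mem_image.1 hx
      exact hL.maps y hy
    · rw [Finset.card_image_of_injOn]
      intro x hx y hy hxy
      exact hL.inj x hx y hy hxy
  rw [← h1] at hi
  obtain ⟨j, hj, h⟩ := Finset.mem_image.1 hi
  exact ⟨j, hj, h⟩

lemma crs_ne {a b c : E3} (h : det3 a b c ≠ 0) : crs a b ≠ 0 := by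
  intro h0
  apply h
  have h1 : (inner ℝ (crs a b) c : ℝ) = det3 a b c := by
    simp [crs, det3, PiLp.inner_apply, Fin.sum_univ_three]
    ring
  rw [← h1, h0, inner_zero_left]

lemma indep {a b c : E3} (h : det3 a b c ≠ 0) : TSP.Indep2 a b := by
  intro x y hxy
  have e0 := congrArg (fun v : E3 => v 0) hxy
  have e1 := congrArg (fun v : E3 => v 1) hxy
  have e2 := congrArg (fun v : E3 => v 2) hxy
  simp only [PiLp.add_apply, PiLp.smul_apply, smul_eq_mul, PiLp.zero_apply] at e0 e1 e2
  have hx : x * det3 a b c = 0 := by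
    simp only [det3]
    linear_combination (b 1 * c 2 - b 2 * c 1) * e0 + (b 2 * c 0 - b 0 * c 2) * e1 +
      (b 0 * c 1 - b 1 * c 0) * e2
  have hy : y * det3 a b c = 0 := by
    simp only [det3]
    linear_combination (-(a 1 * c 2 - a 2 * c 1)) * e0 - (a 2 * c 0 - a 0 * c 2) * e1 -
      (a 0 * c 1 - a 1 * c 0) * e2
  constructor
  · rcases mul_eq_zero.1 hx with h1 | h1
    · exact h1
    · exact absurd h1 h
  · rcases mul_eq_zero.1 hy with h1 | h1
    · exact h1
    · exact absurd h1 h

lemma third {L : Pg W} (hL : L.Ok) {i : W} (hi : i ∈ L.S) :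
    ∃ k, det3 (L.p i) (L.p (L.s i)) (L.p k) ≠ 0 := by
  have hsi := hL.maps i hi
  have hc : 1 < ((L.S.erase i).erase (L.s i)).card := by
    rw [Finset.card_erase_of_mem, Finset.card_erase_of_mem hi]
    · have := hL.card
      omega
    · rw [Finset.mem_erase]
      exact ⟨cyc1 hL hi, hsi⟩
  obtain ⟨k₁, hk₁, k₂, hk₂, hne⟩ := Finset.one_lt_card.1 hc
  simp only [Finset.mem_erase] at hk₁ hk₂
  by_contra hcon
  push Not at hcon
  have f1 : L.Flat i (L.s i) k₁ := by
    by_contra hf
    exact hL.gen i hi (L.s i) hsi k₁ hk₁.2.2 (cyc1 hL hi).symm (Ne.symm hk₁.2.1)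
      (Ne.symm hk₁.1) hf (hcon k₁)
  have f2 : L.Flat i (L.s i) k₂ := by
    by_contra hf
    exact hL.gen i hi (L.s i) hsi k₂ hk₂.2.2 (cyc1 hL hi).symm (Ne.symm hk₂.2.1)
      (Ne.symm hk₂.1) hf (hcon k₂)
  obtain ⟨m, q, hX, hq, hqm, he⟩ := f1
  obtain ⟨m', q', hX', hq', hqm', he'⟩ := f2
  have hmm : m = m' := by
    rw [hX] at hX'
    exact Option.some.inj hX'
  subst hmm
  have hqq : q = q' := hL.inj q hq q' hq' (hqm.trans hqm'.symm)
  subst hqq
  have h1 : k₁ ∈ ({i, L.s i, k₂} : Finset W) := by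
    rw [he', ← he]
    simp
  simp only [Finset.mem_insert, Finset.mem_singleton] at h1
  rcases h1 with h | h | h
  · exact hk₁.2.1 h
  · exact hk₁.1 h
  · exact hne h

end GNR_

theorem gnr_proof : Stmt_GNR := by
  intro W _ L hL
  refine ⟨?_, ?_, ?_, ?_, ?_⟩
  · intro i hi
    obtain ⟨k, hk⟩ := GNR_.third hL hi
    exact ⟨GNR_.crs_ne hk, GNR_.indep hk⟩
  · intro i hi
    exact GNR_.pred hL hi
  · intro i hi
    exact ⟨GNR_.cyc1 hL hi, GNR_.cyc2 hL hi, GNR_.cyc3 hL hi⟩
  · intro i hi ht
    have hsi := hL.maps i hi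
    have hssi := hL.maps _ hsi
    have hf : L.Flat i (L.s i) (L.s (L.s i)) := by
      by_contra hf
      exact hL.gen i hi (L.s i) hsi (L.s (L.s i)) hssi (GNR_.cyc1 hL hi).symm
        (GNR_.cyc2 hL hi).symm (GNR_.cyc1 hL hsi).symm hf ht
    obtain ⟨m, q, hX, hq, hqm, he⟩ := hf
    have hqi : q = i := by
      have h1 : q ∈ ({i, L.s i, L.s (L.s i)} : Finset W) := by
        rw [he]
        simp
      simp only [Finset.mem_insert, Finset.mem_singleton] at h1
      rcases h1 with h | h | h
      · exact h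
      · exfalso
        apply GNR_.no3 hL hi
        rw [he, ← hqm, h]
        simp
      · exfalso
        apply GNR_.no3 hL hi
        rw [he, ← hqm, h]
        simp
    rw [hX, ← hqm, hqi]
  · intro m hX
    rcases hL.kind with ⟨h, -⟩ | ⟨m', hm', hc⟩
    · rw [h] at hX
      exact absurd hX (by simp)
    · have hmm : m' = m := by
        rw [hX] at hm'
        exact (Option.some.inj hm').symm
      subst hmm
      obtain ⟨hmS, q₀, hq₀, hs₀, ⟨a, b, ha, hb, hab⟩, -⟩ := hc
      refine ⟨hmS, ?_⟩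
      intro q hq hqm
      have hqq : q = q₀ := hL.inj q hq q₀ hq₀ (hqm.trans hs₀.symm)
      subst hqq
      have hp : L.p m' = -(a • L.p q + b • L.p (L.s m')) := by
        rw [eq_neg_iff_add_eq_zero, add_comm]
        exact hab
      have e0 := congrArg (fun v : E3 => v 0) hp
      have e1 := congrArg (fun v : E3 => v 1) hp
      have e2 := congrArg (fun v : E3 => v 2) hp
      simp only [PiLp.neg_apply, PiLp.add_apply, PiLp.smul_apply, smul_eq_mul] at e0 e1 e2
      refine ⟨?_, ⟨a / b, div_pos ha hb, ?_⟩, a, b, ha, hb, hp⟩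
      · show det3 (L.p q) (L.p (L.s q)) (L.p (L.s (L.s q))) = 0
        rw [hqm]
        simp only [det3, e0, e1, e2]
        ring
      · show crs (L.p m') (L.p (L.s m')) = (a / b) • crs (L.p q) (L.p (L.s q))
        rw [hqm]
        have hb' : b ≠ 0 := hb.ne'
        ext j
        fin_cases j
        · simp only [crs, PiLp.smul_apply, smul_eq_mul, e0, e1, e2]
          simp
          field_simp
          ring
        · simp only [crs, PiLp.smul_apply, smul_eq_mul, e0, e1, e2]
          simp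
          field_simp
          ring
        · simp only [crs, PiLp.smul_apply, smul_eq_mul, e0, e1, e2]
          simp
          field_simp
          ring

end Pool.Agent.TSR3
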