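import Pool.Agent.TSR3.StmtsW

/-!
# TSR3, PGG: the local resolution theorem for the field with directions `e`
-/

set_option autoImplicit false

open scoped RealInnerProductSpace

namespace Pool.Agent.TSR3

open Pool.Agent.TSM Set Filter Topology
open Pool.Agent.TSR (Fac IsOpp Nf Ft Flag n0 P0 Dl eE cutf sg bT InT nE CoreMap NearV EHalf eV
  Stmt_FLG Stmt_BTV Stmt_BTS Stmt_VTX)
open Pool.Agent.TSR2 (Dic scl OZ)

namespace PGG_

/-- lower bound of a nonnegative combination of two independent vectors -/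
theorem low_bound {x y : E3} (h : TSP.Indep2 x y) :
    ∃ κ : ℝ, 0 < κ ∧ ∀ a c : ℝ, 0 ≤ a → 0 ≤ c → κ * (a + c) ≤ ‖a • x + c • y‖ := by
  have hcont : Continuous fun t : ℝ => ‖t • x + (1 - t) • y‖ := by fun_prop
  obtain ⟨t₀, ht₀, hmin⟩ := (isCompact_Icc (a := (0 : ℝ)) (b := 1)).exists_isMinOn
    ⟨0, by simp⟩ hcont.continuousOn
  have hpos : 0 < ‖t₀ • x + (1 - t₀) • y‖ := by
    rw [norm_pos_iff]
    intro h0
    obtain ⟨h1, h2⟩ := h _ _ h0
    linarith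
  refine ⟨_, hpos, ?_⟩
  intro a c ha hc
  rcases eq_or_lt_of_le (add_nonneg ha hc) with h0 | h0
  · rw [← h0, mul_zero]
    exact norm_nonneg _
  · have hm := hmin (show a / (a + c) ∈ Icc (0 : ℝ) 1 from
      ⟨div_nonneg ha h0.le, by rw [div_le_one h0]; linarith⟩)
    simp only at hm
    have e1 : a • x + c • y = (a + c) • ((a / (a + c)) • x + (1 - a / (a + c)) • y) := by
      rw [smul_add, smul_smul, smul_smul]
      have h1 : (a + c) * (a / (a + c)) = a := by field_simp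
      have h2 : (a + c) * (1 - a / (a + c)) = c := by field_simp; ring
      rw [h1, h2]
    rw [e1, norm_smul, Real.norm_of_nonneg h0.le, mul_comm]
    exact mul_le_mul_of_nonneg_left hm h0.le

variable {W : Type} [DecidableEq W]

/-- uniform lower bound on finitely many labels -/
theorem finite_pos (S : Finset W) (P : W → ℝ → Prop)
    (hP : ∀ i ∈ S, ∃ κ : ℝ, 0 < κ ∧ P i κ)
    (hmono : ∀ i ∈ S, ∀ κ κ' : ℝ, 0 < κ' → κ' ≤ κ → P i κ → P i κ') :
    ∃ κ : ℝ, 0 < κ ∧ ∀ i ∈ S, P i κ := by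
  induction S using Finset.induction_on with
  | empty => exact ⟨1, one_pos, by simp⟩
  | insert a S ha ih =>
    obtain ⟨κ₁, h1, h2⟩ := ih (fun i hi => hP i (Finset.mem_insert_of_mem hi))
      (fun i hi => hmono i (Finset.mem_insert_of_mem hi))
    obtain ⟨κ₂, h3, h4⟩ := hP a (Finset.mem_insert_self _ _)
    refine ⟨min κ₁ κ₂, lt_min h1 h3, ?_⟩
    intro i hi
    rcases Finset.mem_insert.1 hi with rfl | hi'
    · exact hmono _ (Finset.mem_insert_self _ _) κ₂ _ (lt_min h1 h3) (min_le_right _ _) h4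
    · exact hmono _ hi κ₁ _ (lt_min h1 h3) (min_le_left _ _) (h2 i hi')

theorem near_mono {L : Pg W} {Ch : W → Finset ℕ} {N : ℕ → E3} {o : W → ℝ} {oN : ℕ → ℝ}
    {η η' : ℝ} {A : W → Aff} {B : ℕ → Aff} (h : L.Near Ch N o oN η A B) (hη : η ≤ η') :
    L.Near Ch N o oN η' A B := by
  refine ⟨?_, ?_, h.2.2⟩
  · intro i hi
    exact ⟨lt_of_lt_of_le (h.1 i hi).1 hη, lt_of_lt_of_le (h.1 i hi).2 hη⟩
  · intro j hj n hn
    exact ⟨lt_of_lt_of_le (h.2.1 j hj n hn).1 hη, lt_of_lt_of_le (h.2.1 j hj n hn).2 hη⟩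

/-- the field near the second arm of a face -/
theorem fG_left {L : Pg W} {e : W → E3} {dd : W → ℝ} {j : W} {a c : ℝ}
    (hd : 0 < dd (L.s j)) (hd' : dd (L.s j) ≤ 1 / 4) (ha : 0 ≤ a) (hc : 0 < c)
    (h : a ≤ dd (L.s j) * c) : fG L e dd j a c = e (L.s (L.s j)) := by
  unfold fG
  rw [TSR.cutf_one hd hc h, TSR.cutf_zero hd.le ha (by nlinarith)]
  simp

/-- the field near the first arm of a face -/
theorem fG_right {L : Pg W} {e : W → E3} {dd : W → ℝ} {j : W} {a c : ℝ}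
    (hd : 0 < dd (L.s j)) (hd' : dd (L.s j) ≤ 1 / 4) (ha : 0 ≤ a) (hc : 0 < c)
    (h : a ≤ dd (L.s j) * c) : fG L e dd j c a = e (L.s j) := by
  unfold fG
  rw [TSR.cutf_one hd hc h, TSR.cutf_zero hd.le ha (by nlinarith)]
  simp

end PGG_

open PGG_

theorem pgg_proof (h1 : TSR2.Stmt_VM3) (h2 : Stmt_GNR) (h3 : Stmt_CHG) (h4 : Stmt_GAE)
    (h5 : Stmt_FLT) : Stmt_PGG := by
  intro W _ L e dd b hOk hPos hRat hCan hAdm
  obtain ⟨μ, ε₀, hμ, hε₀, hVM⟩ := h1 W L hOk b hAdm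
  obtain ⟨c₀, C₀, τ₁, hc₀, hτ₁, hCHG⟩ := h3 W L e μ hOk hPos hμ
  obtain ⟨gInd, gPre, gCyc, gTurn, gX⟩ := h2 W L hOk
  obtain ⟨κ, hκ, hκ'⟩ := finite_pos L.S
    (fun i κ => ∀ a c : ℝ, 0 ≤ a → 0 ≤ c → κ * (a + c) ≤ ‖a • L.p i + c • L.p (L.s i)‖)
    (fun i hi => low_bound (gInd i hi).2)
    (fun i hi κ κ' h0 hle hP a c ha hc =>
      le_trans (mul_le_mul_of_nonneg_right hle (add_nonneg ha hc)) (hP a c ha hc))
  refine ⟨c₀, C₀, min (min ε₀ τ₁) (1 / 4), hc₀, lt_min (lt_min hε₀ hτ₁) (by norm_num), ?_⟩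
  intro τ hτ hτ'
  have hτa : τ < ε₀ := lt_of_lt_of_le hτ' ((min_le_left _ _).trans (min_le_left _ _))
  have hτb : τ < τ₁ := lt_of_lt_of_le hτ' ((min_le_left _ _).trans (min_le_right _ _))
  have hτc : τ < 1 / 4 := lt_of_lt_of_le hτ' (min_le_right _ _)
  obtain ⟨Ch, N, hCond, hne, o, oN, η₁, R₁, M, hη₁, hR₁, hOZ, hD⟩ := hVM τ hτ hτa
  obtain ⟨η₂, R₂, hη₂, hR₂, hGAE⟩ := h4 W L e μ τ Ch N o oN hOk hPos hμ hτ hCond
  refine ⟨Ch, N, o, oN, min η₁ η₂, max (R₁ / κ) R₂, M, lt_min hη₁ hη₂,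
    lt_max_of_lt_right hR₂, hOZ, hCHG τ Ch N hτ hτb hCond hne, ?_⟩
  intro A B hNear
  have hN1 := near_mono hNear (min_le_left η₁ η₂)
  have hN2 := near_mono hNear (min_le_right η₁ η₂)
  obtain ⟨D, hcont, hgh, hbdd, hfar⟩ := hD A B hN1
  have hG := hGAE A B hN2
  -- norm bound
  have hnorm : ∀ i ∈ L.S, ∀ a c : ℝ, 0 ≤ a → 0 ≤ c → max (R₁ / κ) R₂ ≤ a + c →
      R₁ ≤ ‖a • L.p i + c • L.p (L.s i)‖ := by
    intro i hi a c ha hc hR
    have h6 : R₁ / κ ≤ a + c := le_trans (le_max_left _ _) hR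
    rw [div_le_iff₀ hκ] at h6
    have h7 := hκ' i hi a c ha hc
    linarith
  have hRpos : ∀ a c : ℝ, max (R₁ / κ) R₂ ≤ a + c → 0 < a + c := fun a c hR =>
    lt_of_lt_of_le (lt_max_of_lt_right hR₂) hR
  have hcone : ∀ i ∈ L.S, ∀ a c : ℝ, 0 ≤ a → 0 ≤ c → a • L.p i + c • L.p (L.s i) ∈ L.cone :=
    fun i hi a c ha hc => ⟨i, hi, a, c, ha, hc, rfl⟩
  have hR2 : ∀ a c : ℝ, max (R₁ / κ) R₂ ≤ a + c → R₂ ≤ a + c := fun a c hR =>
    le_trans (le_max_right _ _) hR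
  have hflat := h5 W L b τ R₁ Ch N μ A B D hOk hAdm hτ (by linarith) hCond hN1.2.2 hfar
  refine ⟨D, hcont, fun x hx => (hgh x hx).1, fun x hx => (hgh x hx).2, hbdd, ?_, ?_, ?_, ?_, ?_⟩
  · intro i hi hti a c ha hc hac hR
    obtain ⟨j, hj, rfl⟩ := gPre i hi
    have hdd := hRat (L.s j) hi
    have hcpos : 0 < c := by
      rcases eq_or_lt_of_le hc with h0 | h0
      · exfalso
        rw [← h0, mul_zero] at hac
        have := hRpos a c hR
        linarith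
      · exact h0
    have hac4 : a ≤ 1 / 4 * c := le_trans hac (mul_le_mul_of_nonneg_right hdd.2 hc)
    obtain ⟨⟨t, ht⟩, hz⟩ := hfar _ (hcone _ hi a c ha hc) (hnorm _ hi a c ha hc hR)
    have hb := hCan j hj a c ha hc (hRpos a c hR)
    rw [fG_left hdd.1 hdd.2 ha hcpos hac] at hb
    rw [hb] at ht
    refine ⟨⟨t, ht⟩, ?_⟩
    rcases le_or_gt a (2 * τ * c) with h6 | h6
    · exact hz.1 _ hi ⟨a, c, ha, hc, h6, Or.inl rfl⟩
    · have h7 : τ * c ≤ a := by nlinarith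
      have h8 : τ * a ≤ c := by nlinarith
      have h9 := hz.2 _ hi ⟨a, c, ha, hc, h7, h8, rfl⟩
      rw [ht] at h9 ⊢
      exact (hG _ hi hti a c t ha hc h7 hac4 (hR2 a c hR)).1 h9
  · intro i hi hti a c ha hc hac hR
    have hsi := hOk.maps i hi
    have hdd := hRat (L.s i) hsi
    have hcpos : 0 < c := by
      rcases eq_or_lt_of_le hc with h0 | h0
      · exfalso
        rw [← h0, mul_zero] at hac
        have := hRpos a c hR
        linarith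
      · exact h0
    have hac4 : a ≤ 1 / 4 * c := le_trans hac (mul_le_mul_of_nonneg_right hdd.2 hc)
    have hR' : max (R₁ / κ) R₂ ≤ c + a := by linarith
    have hcomm : a • L.p (L.s (L.s i)) + c • L.p (L.s i) =
        c • L.p (L.s i) + a • L.p (L.s (L.s i)) := add_comm _ _
    obtain ⟨⟨t, ht⟩, hz⟩ := hfar _ (hcone _ hsi c a hc ha) (hnorm _ hsi c a hc ha hR')
    have hb := hCan i hi c a hc ha (hRpos c a hR')
    rw [fG_right hdd.1 hdd.2 ha hcpos hac] at hb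
    rw [hb, ← hcomm] at ht
    rw [← hcomm] at hz
    refine ⟨⟨t, ht⟩, ?_⟩
    rcases le_or_gt a (2 * τ * c) with h6 | h6
    · exact hz.1 _ hi ⟨a, c, ha, hc, h6, Or.inr rfl⟩
    · have h7 : τ * c ≤ a := by nlinarith
      have h8 : τ * a ≤ c := by nlinarith
      have h9 := hz.2 _ hsi ⟨c, a, hc, ha, h8, h7, hcomm⟩
      rw [ht] at h9 ⊢
      exact (hG _ hi hti a c t ha hc h7 hac4 (hR2 a c hR)).2 h9
  · intro j hj a c ha hc h6 h7 hR
    have hsj := hOk.maps j hj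
    obtain ⟨⟨t, ht⟩, hz⟩ := hfar _ (hcone _ hsj a c ha hc) (hnorm _ hsj a c ha hc hR)
    have hb := hCan j hj a c ha hc (hRpos a c hR)
    rw [hb] at ht
    exact ⟨⟨t, ht⟩, hz.2 _ hsj ⟨a, c, ha, hc, h6, h7, rfl⟩⟩
  · intro m hm q hq hqm a c ha hc h6 hR
    have h7 := hnorm q hq a c ha hc hR
    rw [hqm] at h7
    exact (hflat m hm q hq hqm a c ha hc).1 h6 h7 hR₁
  · intro m hm a c ha hc h6 hR
    have hmS := (gX m hm).1
    obtain ⟨q, hq, hqm⟩ := gPre m hmS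
    exact (hflat m hm q hq hqm a c ha hc).2 h6 (hnorm m hmS a c ha hc hR) hR₁

end Pool.Agent.TSR3
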