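import Pool.Agent.TSR3.WDefs

/-!
# TSR3: R-VERTEX of MP_89ee87_gt: exact statements
-/

set_option autoImplicit false

open scoped RealInnerProductSpace

namespace Pool.Agent.TSR3

open Pool.Agent.TSM Set Filter Topology
open Pool.Agent.TSR (Fac IsOpp Nf Ft Flag n0 P0 Dl eE cutf sg bT InT nE CoreMap NearV EHalf eV
  Stmt_FLG Stmt_BTV Stmt_BTS Stmt_VTX)
open Pool.Agent.TSR2 (Dic scl OZ)

/-! ### polygons -/

/-- the cut-off is Lipschitz -/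
def Stmt_CUL : Prop :=
  ∀ d m a c a' c' : ℝ, 0 < d → d ≤ 1 / 4 → 0 < m → 0 ≤ a → 0 ≤ c → 0 ≤ a' → 0 ≤ c' →
    m ≤ max a c → m ≤ max a' c' →
    |cutf d c a - cutf d c' a'| ≤ 4 / (d * m) * (|a - a'| + |c - c'|)

/-- elementary facts on polygons -/
def Stmt_GNR : Prop :=
  ∀ (W : Type) [DecidableEq W] (L : Pg W), L.Ok →
    (∀ i ∈ L.S, L.nor i ≠ 0 ∧ TSP.Indep2 (L.p i) (L.p (L.s i))) ∧
    (∀ i ∈ L.S, ∃ j ∈ L.S, L.s j = i) ∧
    (∀ i ∈ L.S, L.s i ≠ i ∧ L.s (L.s i) ≠ i ∧ L.s (L.s (L.s i)) ≠ i) ∧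
    (∀ i ∈ L.S, L.turn i = 0 → L.X = some (L.s i)) ∧
    (∀ m, L.X = some m → m ∈ L.S ∧ ∀ q ∈ L.S, L.s q = m → L.turn q = 0 ∧
      (∃ k : ℝ, 0 < k ∧ L.nor m = k • L.nor q) ∧
      ∃ a b : ℝ, 0 < a ∧ 0 < b ∧ L.p m = -(a • L.p q + b • L.p (L.s m)))

/-- existence of the field -/
def Stmt_CNG : Prop :=
  ∀ (W : Type) [DecidableEq W] (L : Pg W) (e : W → E3) (dd : W → ℝ), L.Ok → Rat L dd →
    ∃ b, CanG L e dd b

/-- bounds of the field -/
def Stmt_BLG : Prop :=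
  ∀ (W : Type) [DecidableEq W] (L : Pg W) (e : W → E3) (dd : W → ℝ) (b : E3 → E3), L.Ok →
    PosE L e → Rat L dd → CanG L e dd b →
    (∃ Λ : ℝ, ∀ x ∈ L.cone, x ≠ 0 → ‖b x‖ ≤ Λ) ∧
    ∃ c : ℝ, 0 < c ∧ ∀ i ∈ L.S, ∀ x ∈ L.face i, x ≠ 0 → c ≤ ⟪L.nor i, b x⟫

/-- Lipschitz estimate on one face -/
def Stmt_LPG : Prop :=
  ∀ (W : Type) [DecidableEq W] (L : Pg W) (e : W → E3) (dd : W → ℝ) (b : E3 → E3), L.Ok →
    Rat L dd → CanG L e dd b →
    ∃ Λ : ℝ, ∀ i ∈ L.S, ∀ x ∈ L.face i, ∀ y ∈ L.face i, x ≠ 0 → y ≠ 0 →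
      ‖x‖ * ‖b x - b y‖ ≤ Λ * ‖x - y‖

/-- the field is admissible -/
def Stmt_ADG : Prop :=
  ∀ (W : Type) [DecidableEq W] (L : Pg W) (e : W → E3) (dd : W → ℝ) (b : E3 → E3), L.Ok →
    PosE L e → Rat L dd → CanG L e dd b → L.Adm b

/-- the chamfers satisfy `PChG` -/
def Stmt_CHG : Prop :=
  ∀ (W : Type) [DecidableEq W] (L : Pg W) (e : W → E3) (μ : ℝ), L.Ok → PosE L e → 0 < μ →
    ∃ c C τ₀ : ℝ, 0 < c ∧ 0 < τ₀ ∧ ∀ (τ : ℝ) (Ch : W → Finset ℕ) (N : ℕ → E3), 0 < τ →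
    τ < τ₀ → L.CondG μ τ Ch N → (∀ i ∈ L.S, L.turn i ≠ 0 → (Ch (L.s i)).Nonempty) →
    PChG L e τ c C Ch N

/-- extension of the equation at an arm -/
def Stmt_GAE : Prop :=
  ∀ (W : Type) [DecidableEq W] (L : Pg W) (e : W → E3) (μ τ : ℝ) (Ch : W → Finset ℕ)
    (N : ℕ → E3) (o : W → ℝ) (oN : ℕ → ℝ), L.Ok → PosE L e → 0 < μ → 0 < τ →
    L.CondG μ τ Ch N →
    ∃ η R : ℝ, 0 < η ∧ 0 < R ∧ ∀ (A : W → Aff) (B : ℕ → Aff), L.Near Ch N o oN η A B →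
    ∀ i ∈ L.S, L.turn i ≠ 0 → ∀ a c s : ℝ, 0 ≤ a → 0 ≤ c → τ * c ≤ a → a ≤ 1 / 4 * c →
    R ≤ a + c →
    (ev (A i) (a • L.p i + c • L.p (L.s i) - s • e (L.s i)) = 0 →
      L.ArmEq Ch A B i (a • L.p i + c • L.p (L.s i) - s • e (L.s i))) ∧
    (ev (A (L.s i)) (a • L.p (L.s (L.s i)) + c • L.p (L.s i) - s • e (L.s i)) = 0 →
      L.ArmEq Ch A B i (a • L.p (L.s (L.s i)) + c • L.p (L.s i) - s • e (L.s i)))

/-- on the flat sector nothing moves (the statement of `TSR2`) -/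
def Stmt_FLT : Prop := TSR2.Stmt_PGL

/-- the local resolution theorem for the field with directions `e` -/
def Stmt_PGG : Prop :=
  ∀ (W : Type) [DecidableEq W] (L : Pg W) (e : W → E3) (dd : W → ℝ) (b : E3 → E3), L.Ok →
    PosE L e → Rat L dd → CanG L e dd b → L.Adm b →
    ∃ c C τ₀ : ℝ, 0 < c ∧ 0 < τ₀ ∧ ∀ τ : ℝ, 0 < τ → τ < τ₀ →
    ∃ (Ch : W → Finset ℕ) (N : ℕ → E3) (o : W → ℝ) (oN : ℕ → ℝ) (η R M : ℝ), 0 < η ∧ 0 < R ∧
      OZ L o ∧ PChG L e τ c C Ch N ∧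
      ∀ (A : W → Aff) (B : ℕ → Aff), L.Near Ch N o oN η A B →
        ∃ D : E3 → E3, PRG L e dd τ R M Ch A B D

/-! ### translation to the star -/

/-- flags and the polygon -/
def Stmt_WDA : Prop :=
  ∀ (V : Type) [Fintype V] [DecidableEq V] (K : Surf V) (p : V → E3) (Φ : Finset Aff)
    (op : V → V → V → V) (v : V) (L : Pg (Option V)) (κ : ℝ), K.Framed p Φ → IsOpp K op →
    Dic K p Φ v L κ → ∀ u w, Flag K p Φ op v u w →
    ∃ i ∈ L.S, L.s i = some u ∧ some u ∈ L.S ∧ L.turn i ≠ 0 ∧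
      ωV L u = Real.sign (L.turn i) ∧
      ((¬ Fac p Φ v u w ∧ i = some w ∧ nE p op v u w = Real.sign (L.turn i) • L.nor i ∧
          sg p op v u w = - Real.sign (L.turn i)) ∨
        (¬ Fac p Φ v u w ∧ L.s (some u) = some w ∧
          nE p op v u w = Real.sign (L.turn i) • L.nor (some u) ∧
          sg p op v u w = Real.sign (L.turn i)) ∨
        (Fac p Φ v u w ∧ L.X = some none ∧ (i = none ∨ L.s (some u) = none) ∧
          ∃ l : ℝ, 0 < l ∧ nE p op v u w = (l * Real.sign (L.turn i)) • L.nor none))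

/-- the directions at the arms -/
def Stmt_WPE : Prop :=
  ∀ (V : Type) [Fintype V] [DecidableEq V] (K : Surf V) (p : V → E3) (Φ : Finset Aff)
    (op : V → V → V → V) (v : V) (L : Pg (Option V)) (κ : ℝ), K.Framed p Φ → IsOpp K op →
    Dic K p Φ v L κ → PosE L (eP K p Φ op v L) ∧ ∀ u w, Flag K p Φ op v u w →
      eP K p Φ op v L (some u) = ωV L u • eE p v u w (op v u w)

/-- the field on a triangle -/
def Stmt_WBT : Prop :=
  ∀ (V : Type) [Fintype V] [DecidableEq V] (K : Surf V) (p : V → E3) (Φ : Finset Aff)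
    (op : V → V → V → V) (v : V) (L : Pg (Option V)) (κ d t : ℝ), K.Framed p Φ →
    IsOpp K op → Dic K p Φ v L κ → 0 < d → d ≤ 1 / 4 → 0 < t → ∀ u w, Nf K p Φ v u w →
    ∀ x, InT v u w x → 1 / 2 ≤ x v →
    (∀ j ∈ L.S, L.s j = some u → L.s (some u) = some w →
      bT p op d v u w x = fG L (eP K p Φ op v L) (dP L d) j (t * x u) (t * x w)) ∧
    (∀ j ∈ L.S, L.s j = some w → L.s (some w) = some u →
      bT p op d v u w x = - fG L (eP K p Φ op v L) (dP L d) j (t * x w) (t * x u))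

/-- the planes are near -/
def Stmt_WNR : Prop :=
  ∀ (V : Type) [Fintype V] [DecidableEq V] (K : Surf V) (p : V → E3) (Φ : Finset Aff)
    (v : V) (L : Pg (Option V)) (κ η r : ℝ) (Ch : Option V → Finset ℕ) (N : ℕ → E3)
    (o : Option V → ℝ) (oN : ℕ → ℝ) (P : V → V → Aff) (B : ℕ → Aff), Dic K p Φ v L κ →
    0 < η → 0 < r → OZ L o → (none ∈ L.S → Ch none = ∅) →
    NearV K p Φ v (fun u => Ch (some u)) N (oP L o) oN η r P B →
    L.Near Ch N o oN η (AP p v L r P) (fun n => scl (p v) r (B n))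

/-- antisymmetry of the offsets -/
def Stmt_WOA : Prop :=
  ∀ (V : Type) [DecidableEq V] (L : Pg (Option V)) (o : Option V → ℝ), L.Ok →
    ∀ u w, oP L o w u = - oP L o u w

/-- the chamfers at the edges of the star -/
def Stmt_WCH : Prop :=
  ∀ (V : Type) [Fintype V] [DecidableEq V] (K : Surf V) (p : V → E3) (Φ : Finset Aff)
    (op : V → V → V → V) (v : V) (L : Pg (Option V)) (κ ε' c C : ℝ)
    (Ch : Option V → Finset ℕ) (N : ℕ → E3), K.Framed p Φ → IsOpp K op → Dic K p Φ v L κ →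
    0 < ε' → ε' ≤ κ / 2 → PChG L (eP K p Φ op v L) (κ * ε' / 2) c C Ch N →
    ∀ u w, Flag K p Φ op v u w → (ωV L u = 1 ∨ ωV L u = -1) ∧
      EHalf (p v) (p u) (p w) (p (op v u w)) (nE p op v u w) (nE p op v u (op v u w)) ε' c C
        (Ch (some u)) (fun n => ωV L u • N n)

/-- the core map at the edges -/
def Stmt_WED : Prop :=
  ∀ (V : Type) [Fintype V] [DecidableEq V] (K : Surf V) (p : V → E3) (Φ : Finset Aff)
    (op : V → V → V → V) (v : V) (L : Pg (Option V)) (κ d τ R M r H : ℝ)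
    (Ch : Option V → Finset ℕ) (P : V → V → Aff) (B : ℕ → Aff) (D : E3 → E3),
    K.Framed p Φ → IsOpp K op → Dic K p Φ v L κ → 0 < d → d ≤ κ / 16 → 0 < r → 0 < R →
    (∀ i ∈ L.S, ‖L.p i‖ ≤ H) →
    PRG L (eP K p Φ op v L) (dP L d) τ R M Ch (AP p v L r P) (fun n => scl (p v) r (B n)) D →
    (∀ u w, P w u = - P u w) → (∀ u w, Ft K p Φ v u w → P u w = P0 p v u w) →
    ∀ u w, Flag K p Φ op v u w → ∀ x, InT v u w x → 1 / 2 ≤ x v →
    H * R * r ≤ ‖lin p x - p v‖ → x w ≤ d * x u →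
    ∃ s : ℝ, GP p v r D (lin p x) = lin p x - s • eE p v u w (op v u w) ∧
      0 ≤ sg p op v u w * ev (P u w) (GP p v r D (lin p x)) ∧
      0 ≤ sg p op v u (op v u w) * ev (P u (op v u w)) (GP p v r D (lin p x)) ∧
      (∀ n ∈ Ch (some u), 0 ≤ ωV L u * ev (B n) (GP p v r D (lin p x))) ∧
      (ev (P u w) (GP p v r D (lin p x)) = 0 ∨
        ev (P u (op v u w)) (GP p v r D (lin p x)) = 0 ∨
        ∃ n ∈ Ch (some u), ev (B n) (GP p v r D (lin p x)) = 0)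

/-- the core map on the triangles -/
def Stmt_WFC : Prop :=
  ∀ (V : Type) [Fintype V] [DecidableEq V] (K : Surf V) (p : V → E3) (Φ : Finset Aff)
    (op : V → V → V → V) (v : V) (L : Pg (Option V)) (κ d τ R M r H : ℝ)
    (Ch : Option V → Finset ℕ) (P : V → V → Aff) (B : ℕ → Aff) (D : E3 → E3),
    K.Framed p Φ → IsOpp K op → Dic K p Φ v L κ → 0 < d → d ≤ 1 / 4 → 0 < r → 0 < R →
    τ ≤ d / 2 → (∀ i ∈ L.S, ‖L.p i‖ ≤ H) →
    PRG L (eP K p Φ op v L) (dP L d) τ R M Ch (AP p v L r P) (fun n => scl (p v) r (B n)) D →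
    (∀ u w, P w u = - P u w) → ∀ u w, Nf K p Φ v u w → ∀ x, InT v u w x → 1 / 2 ≤ x v →
    H * R * r ≤ ‖lin p x - p v‖ → d / 2 * x u ≤ x w → d / 2 * x w ≤ x u →
    (∃ s : ℝ, GP p v r D (lin p x) = lin p x - s • bT p op d v u w x) ∧
      ev (P u w) (GP p v r D (lin p x)) = 0

/-- the core map on the facet triangles -/
def Stmt_WFT : Prop :=
  ∀ (V : Type) [Fintype V] [DecidableEq V] (K : Surf V) (p : V → E3) (Φ : Finset Aff)
    (op : V → V → V → V) (v : V) (L : Pg (Option V)) (κ d τ R M r H : ℝ)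
    (Ch : Option V → Finset ℕ) (P : V → V → Aff) (B : ℕ → Aff) (D : E3 → E3),
    K.Framed p Φ → IsOpp K op → Dic K p Φ v L κ → 0 < d → d ≤ 1 → 0 < r → 0 < R →
    τ ≤ κ * (d / 2) → (∀ i ∈ L.S, ‖L.p i‖ ≤ H) →
    PRG L (eP K p Φ op v L) (dP L d) τ R M Ch (AP p v L r P) (fun n => scl (p v) r (B n)) D →
    ∀ u w, Ft K p Φ v u w → ∀ x, InT v u w x → 1 / 2 ≤ x v →
    H * R * r ≤ ‖lin p x - p v‖ → (Flag K p Φ op v u w → d / 2 * x u ≤ x w) →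
    (Flag K p Φ op v w u → d / 2 * x w ≤ x u) → GP p v r D (lin p x) = lin p x

/-- the core map and the facets -/
def Stmt_WHF : Prop :=
  ∀ (V : Type) [Fintype V] [DecidableEq V] (K : Surf V) (p : V → E3) (Φ : Finset Aff)
    (v : V) (L : Pg (Option V)) (κ r : ℝ) (D : E3 → E3), Dic K p Φ v L κ → 0 < r →
    (∀ x ∈ L.cone, L.Half (D x)) → ∀ φ ∈ Φ, ev φ (p v) = 0 → ∀ x ∈ K.star v,
    ev φ (GP p v r D (lin p x)) ≤ 0

/-- the core map is good -/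
def Stmt_WGD : Prop :=
  ∀ (V : Type) [Fintype V] [DecidableEq V] (K : Surf V) (p : V → E3) (Φ : Finset Aff)
    (v : V) (L : Pg (Option V)) (κ r : ℝ) (D : E3 → E3), K.EmbStars p → Dic K p Φ v L κ →
    0 < r → (∀ x ∈ L.cone, GoodOn L.cone D x) → ∀ x : K.body, 0 < x.1 v →
    Good (fun x' : K.body => GP p v r D (K.map p x')) x

/-- the core map is continuous and near to the map -/
def Stmt_WBC : Prop :=
  ∀ (V : Type) [Fintype V] [DecidableEq V] (K : Surf V) (p : V → E3) (Φ : Finset Aff)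
    (v : V) (L : Pg (Option V)) (κ r M : ℝ) (D : E3 → E3), Dic K p Φ v L κ → 0 < r →
    ContinuousOn D L.cone → (∀ x ∈ L.cone, ‖D x - x‖ ≤ M * (1 + ‖x‖)) →
    ContinuousOn (fun x => GP p v r D (lin p x)) (K.star v) ∧
    ∀ x ∈ K.star v, ‖GP p v r D (lin p x) - lin p x‖ ≤ M * (r + ‖lin p x - p v‖)

/-- every non-outer vertex has a dictionary -/
def Stmt_WDI : Prop :=
  ∀ (V : Type) [Fintype V] [DecidableEq V] (K : Surf V) (p : V → E3) (Φ : Finset Aff),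
    K.Framed p Φ → ∀ v, ¬ K.Outer p Φ v → ∃ (L : Pg (Option V)) (κ : ℝ), Dic K p Φ v L κ

end Pool.Agent.TSR3
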