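import Pool.Agent.TSR3.StmtsW

/-!
# TSR3: assembly of R-VERTEX: `Stmt_VTX` from the modules
-/

set_option autoImplicit false

open scoped RealInnerProductSpace

namespace Pool.Agent.TSR3

open Pool.Agent.TSM Set Filter Topology
open Pool.Agent.TSR (Fac IsOpp Nf Ft Flag n0 P0 Dl eE cutf sg bT InT nE CoreMap NearV EHalf eV
  Stmt_FLG Stmt_BTV Stmt_BTS Stmt_VTX)
open Pool.Agent.TSR2 (Dic scl OZ)

theorem wdi_proof (h1 : TSR2.Stmt_DIN) (h2 : TSR2.Stmt_COD) (h3 : TSR2.Stmt_DCR) : Stmt_WDI := by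
  intro V _ _ K p Φ hfr v hv
  rcases hfr.kinds v with h | h | h
  · exact absurd h hv
  · obtain ⟨n, c, hc⟩ := K.link v
    exact ⟨_, 1, h1 V K p Φ v n c hfr h hc⟩
  · obtain ⟨φ, n, c, m, hd⟩ := h2 V K p Φ v h
    obtain ⟨b, κ, hd'⟩ := h3 V K p Φ v φ n c m hfr hd
    exact ⟨_, κ, hd'⟩

/-- the vertex theorem for one vertex with a dictionary -/
theorem vtx_one (wpe : Stmt_WPE) (cng : Stmt_CNG) (adg : Stmt_ADG) (pgg : Stmt_PGG)
    (woa : Stmt_WOA) (wch : Stmt_WCH) (wnr : Stmt_WNR) (wed : Stmt_WED) (wfc : Stmt_WFC)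
    (wft : Stmt_WFT) (whf : Stmt_WHF) (wgd : Stmt_WGD) (wbc : Stmt_WBC)
    (V : Type) [Fintype V] [DecidableEq V] (K : Surf V) (p : V → E3) (Φ : Finset Aff)
    (op : V → V → V → V) (hfr : K.Framed p Φ) (hop : IsOpp K op) (v : V) (L : Pg (Option V))
    (κ : ℝ) (hd : Dic K p Φ v L κ) (d : ℝ) (hd0 : 0 < d) (hd1 : d ≤ κ / 16) :
    ∃ c C ε₀ : ℝ, 0 < c ∧ 0 < ε₀ ∧ ∀ ε' : ℝ, 0 < ε' → ε' < ε₀ →
    ∃ (κ' : Type) (X : V → Finset κ') (τ : V → ℝ) (N₀ : κ' → E3),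
      (∀ u w, Flag K p Φ op v u w → (τ u = 1 ∨ τ u = -1) ∧
        EHalf (p v) (p u) (p w) (p (op v u w)) (nE p op v u w) (nE p op v u (op v u w)) ε' c C
          (X u) (fun n => τ u • N₀ n)) ∧
      ∃ (o : V → V → ℝ) (oN : κ' → ℝ) (η R M : ℝ), 0 < η ∧ 0 < R ∧ (∀ u w, o w u = - o u w) ∧
        ∀ (r : ℝ), 0 < r → ∀ (P : V → V → Aff) (B : κ' → Aff),
        NearV K p Φ v X N₀ o oN η r P B → ∃ G : E3 → E3, CoreMap K p Φ op d v X τ R M r P B G := by
  have hk0 := hd.k0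
  have hk1 := hd.k1
  have hd4 : d ≤ 1 / 4 := by linarith
  obtain ⟨hpos, hdir⟩ := wpe V K p Φ op v L κ hfr hop hd
  have hrat : Rat L (dP L d) := by
    intro i _
    cases i with
    | none => exact ⟨by norm_num [dP], by norm_num [dP]⟩
    | some u =>
      by_cases h : L.s (some u) = none
      · have e : dP L d (some u) = 1 / 8 := if_pos h
        rw [e]
        exact ⟨by norm_num, by norm_num⟩
      · have e : dP L d (some u) = d := if_neg h
        rw [e]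
        exact ⟨hd0, hd4⟩
  obtain ⟨b, hb⟩ := cng _ L (eP K p Φ op v L) (dP L d) hd.ok hrat
  have hadm := adg _ L (eP K p Φ op v L) (dP L d) b hd.ok hpos hrat hb
  obtain ⟨c, C, τ₀, hc, hτ₀, hpg⟩ := pgg _ L (eP K p Φ op v L) (dP L d) b hd.ok hpos hrat hb hadm
  refine ⟨c, C, min (κ / 2) (min (2 * τ₀ / κ) d), hc, by positivity, fun ε' hε hε' => ?_⟩
  have e1 : ε' < κ / 2 := lt_of_lt_of_le hε' (min_le_left _ _)
  have e2 : ε' < 2 * τ₀ / κ := lt_of_lt_of_le hε' ((min_le_right _ _).trans (min_le_left _ _))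
  have e3 : ε' < d := lt_of_lt_of_le hε' ((min_le_right _ _).trans (min_le_right _ _))
  have hτ : 0 < κ * ε' / 2 := by positivity
  have hτ' : κ * ε' / 2 < τ₀ := by
    rw [lt_div_iff₀ hk0] at e2
    linarith
  obtain ⟨Ch, N, o, oN, η, R, M, hη, hR, hoz, hch, hres⟩ := hpg (κ * ε' / 2) hτ hτ'
  -- bound of the vectors
  obtain ⟨H, hH⟩ : ∃ H : ℝ, ∀ i ∈ L.S, ‖L.p i‖ ≤ H := by
    obtain ⟨H, hH⟩ := Finset.exists_le (L.S.image fun i => ‖L.p i‖)
    exact ⟨H, fun i hi => hH _ (Finset.mem_image_of_mem _ hi)⟩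
  have hH1 : ∀ i ∈ L.S, ‖L.p i‖ ≤ max H 1 := fun i hi => (hH i hi).trans (le_max_left _ _)
  have hH0 : 0 < max H 1 := lt_of_lt_of_le one_pos (le_max_right _ _)
  have hnone : none ∈ L.S → Ch none = ∅ := by
    intro hn
    rcases hd.typ with ⟨-, h⟩ | ⟨h, -⟩
    · exact absurd hn h
    · -- the flat vertex
      rcases hd.ok.kind with ⟨hX, -⟩ | ⟨m, hX, hm, q, hq, hsq, ⟨a, b', ha, hb', hab⟩, -⟩
      · rw [h] at hX; exact absurd hX (by simp)
      · have hm' : m = none := by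
          rw [h] at hX; exact (Option.some.inj hX).symm
        subst hm'
        have ht : L.turn q = 0 := by
          have e : L.p none = -(a • L.p q + b' • L.p (L.s none)) :=
            eq_neg_of_add_eq_zero_right hab
          unfold Pg.turn
          rw [hsq, e]
          simp only [det3, PiLp.neg_apply, PiLp.add_apply, PiLp.smul_apply, smul_eq_mul]
          ring
        have := (hch q hq).1 ht
        rw [hsq] at this
        exact this
  refine ⟨ℕ, fun u => Ch (some u), fun u => ωV L u, N, fun u w hf => ?_, oP L o, oN, η,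
    max H 1 * R, M, hη, mul_pos hH0 hR, fun u w => woa V L o hd.ok u w, fun r hr P B hn => ?_⟩
  · exact wch V K p Φ op v L κ ε' c C Ch N hfr hop hd hε e1.le hch u w hf
  · have hnear := wnr V K p Φ v L κ η r Ch N o oN P B hd hη hr hoz hnone hn
    obtain ⟨D, hD⟩ := hres _ _ hnear
    obtain ⟨b1, b2⟩ := wbc V K p Φ v L κ r M D hd hr hD.cont hD.bdd
    refine ⟨GP p v r D, ⟨b1, ?_, b2, ?_, ?_, ?_, ?_⟩⟩
    · exact wgd V K p Φ v L κ r D hfr.emb hd hr hD.good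
    · exact fun φ hφ h0 x hx => whf V K p Φ v L κ r D hd hr hD.half φ hφ h0 x hx
    · intro u w hf x hx hxv hRr hxw
      exact wed V K p Φ op v L κ d (κ * ε' / 2) R M r (max H 1) Ch P B D hfr hop hd hd0 hd1 hr hR
        hH1 hD hn.anti hn.ft u w hf x hx hxv hRr hxw
    · intro u w hf x hx hxv hRr h1 h2
      exact wfc V K p Φ op v L κ d (κ * ε' / 2) R M r (max H 1) Ch P B D hfr hop hd hd0 hd4 hr hR
        (by nlinarith) hH1 hD hn.anti u w hf x hx hxv hRr h1 h2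
    · intro u w hf x hx hxv hRr h1 h2
      exact wft V K p Φ op v L κ d (κ * ε' / 2) R M r (max H 1) Ch P B D hfr hop hd hd0
        (by linarith) hr hR (by nlinarith) hH1 hD u w hf x hx hxv hRr h1 h2

theorem vtx_of (wdi : Stmt_WDI) (wpe : Stmt_WPE) (cng : Stmt_CNG) (adg : Stmt_ADG)
    (pgg : Stmt_PGG) (woa : Stmt_WOA) (wch : Stmt_WCH) (wnr : Stmt_WNR) (wed : Stmt_WED)
    (wfc : Stmt_WFC) (wft : Stmt_WFT) (whf : Stmt_WHF) (wgd : Stmt_WGD) (wbc : Stmt_WBC) :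
    Stmt_VTX := by
  intro V _ _ K p Φ op hfr hop
  have hdic : ∀ v, ∃ (L : Pg (Option V)) (κ : ℝ), 0 < κ ∧ (¬ K.Outer p Φ v → Dic K p Φ v L κ) := by
    intro v
    by_cases hv : K.Outer p Φ v
    · exact ⟨⟨∅, id, fun _ => 0, none⟩, 1, one_pos, fun h => absurd hv h⟩
    · obtain ⟨L, κ, h⟩ := wdi V K p Φ hfr v hv
      exact ⟨L, κ, h.k0, fun _ => h⟩
  choose L κ hκ hL using hdic
  obtain ⟨d₀, hd₀, hle⟩ : ∃ d₀ : ℝ, 0 < d₀ ∧ ∀ v, d₀ ≤ κ v / 16 := by
    by_cases hne : Nonempty V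
    · obtain ⟨v₀, -, hv₀⟩ := Finset.exists_min_image (Finset.univ : Finset V) (fun v => κ v / 16)
        Finset.univ_nonempty
      exact ⟨κ v₀ / 16, by have := hκ v₀; positivity, fun v => hv₀ v (Finset.mem_univ v)⟩
    · exact ⟨1, one_pos, fun v => absurd ⟨v⟩ hne⟩
  refine ⟨d₀, hd₀, fun d hd hdd v hv => ?_⟩
  exact vtx_one wpe cng adg pgg woa wch wnr wed wfc wft whf wgd wbc V K p Φ op hfr hop v (L v)
    (κ v) (hL v hv) d hd (hdd.le.trans (hle v))

end Pool.Agent.TSR3
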