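import Pool.Agent.TSR3.StmtsW

/-!
# TSR3: WDA, flags and the polygon
-/

set_option autoImplicit false

open scoped RealInnerProductSpace

namespace Pool.Agent.TSR3

open Pool.Agent.TSM Set Filter Topology
open Pool.Agent.TSR (Fac IsOpp Nf Ft Flag n0 P0 Dl eE cutf sg bT InT nE CoreMap NearV EHalf eV
  Stmt_FLG Stmt_BTV Stmt_BTS Stmt_VTX)
open Pool.Agent.TSR2 (Dic scl)

namespace WDA_

theorem crs_comb_right (a b : E3) (x y : ℝ) : crs a (x • b + y • a) = x • crs a b := by
  ext k
  fin_cases k <;> simp [crs] <;> ring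

theorem crs_anti' (a b : E3) : crs a b = - crs b a := by
  ext k
  fin_cases k <;> simp [crs] <;> ring

theorem det3_comb (a b c : E3) (x y x' y' : ℝ) :
    det3 a (x • b + y • a) (x' • c + y' • a) = x * x' * det3 a b c := by
  simp only [det3, PiLp.add_apply, PiLp.smul_apply, smul_eq_mul]
  ring

theorem det3_cyc (a b c : E3) : det3 a b c = det3 c a b := by
  simp only [det3]
  ring

theorem det3_anti (a b c : E3) : det3 a b c = - det3 b a c := by
  simp only [det3]
  ring

/-- `crs q m = (β / α) crs m s` if `α q + β s + m = 0` -/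
theorem crs_flat (q s m : E3) {α β : ℝ} (hα : 0 < α) (h : α • q + β • s + m = 0) :
    crs q m = (β / α) • crs m s := by
  have hq : q = (-(β / α)) • s + (-(1 / α)) • m := by
    have h1 : α • q = -(β • s + m) := by
      rw [eq_neg_iff_add_eq_zero, ← add_assoc]
      exact h
    have h2 : q = α⁻¹ • (α • q) := by
      rw [smul_smul, inv_mul_cancel₀ hα.ne', one_smul]
    rw [h2, h1]
    module
  rw [hq]
  ext k
  fin_cases k <;> simp [crs] <;> ring

section
variable {V : Type} [Fintype V] [DecidableEq V] {K : Surf V} {p : V → E3} {Φ : Finset Aff}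
  {op : V → V → V → V} {v : V} {L : Pg (Option V)} {κ : ℝ}

omit [Fintype V] in
theorem fac_iff {v u w : V} : Fac p Φ v u w ↔ TSR2.FT p Φ {v, u, w} := by
  constructor
  · rintro ⟨φ, h0, h1, h2, h3⟩
    refine ⟨φ, h0, fun z hz => ?_⟩
    simp only [Finset.mem_insert, Finset.mem_singleton] at hz
    rcases hz with h | h | h <;> rw [h] <;> assumption
  · rintro ⟨φ, h0, h1⟩
    exact ⟨φ, h0, h1 v (by simp), h1 u (by simp), h1 w (by simp)⟩

theorem tri_of {v u w : V} (h : ({v, u, w} : Finset V) ∈ K.tri) : TSR2.Tri K v u w :=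
  let n := TSR.tri_ne h
  ⟨n.1, n.2.1, n.2.2, h⟩

/-- the label of the neighbour triangle -/
theorem nbr (hD : Dic K p Φ v L κ) {u z : V} (ht : ({v, u, z} : Finset V) ∈ K.tri)
    (hA : TSR2.Act K p Φ v u) : ∃ (l : Option V) (x b : ℝ), l ∈ L.S ∧ some u ∈ L.S ∧ 0 < x ∧
      p z - p v = x • L.p l + b • L.p (some u) ∧ (L.s (some u) = l ∨ L.s l = some u) ∧
      ((¬ Fac p Φ v u z ∧ l = some z ∧ x = 1 ∧ b = 0) ∨
        (Fac p Φ v u z ∧ l = none ∧ L.X = some none)) := by
  by_cases hF : Fac p Φ v u z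
  · obtain ⟨h1, h2, h3, x, y, hx1, hx2, hy, he⟩ := hD.pck u z (tri_of ht) (fac_iff.1 hF) hA
    have hn : none ∈ L.S := by
      rcases hD.typ with h | h
      · rw [h.1] at h1
        exact absurd h1 (by simp)
      · exact h.2
    exact ⟨none, x, y, hn, h2, lt_of_lt_of_le hD.k0 hx1, he, h3.symm, Or.inr ⟨hF, rfl, h1⟩⟩
  · obtain ⟨h1, h2, h3⟩ := hD.occ u z (tri_of ht) (fun h => hF (fac_iff.2 h))
    refine ⟨some z, 1, 0, h2, h1, one_pos, ?_, h3, Or.inl ⟨hF, rfl, rfl, rfl⟩⟩
    rw [hD.pos z h2, one_smul, zero_smul, add_zero]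

theorem om (hD : Dic K p Φ v L κ) {u : V} {i : Option V} (hi : i ∈ L.S)
    (hs : L.s i = some u) : ωV L u = Real.sign (L.turn i) := by
  unfold ωV TSR2.ωS
  have h : ∃ i ∈ L.S, L.s i = some u := ⟨i, hi, hs⟩
  rw [dif_pos h]
  have := hD.ok.inj _ h.choose_spec.1 _ hi (by rw [h.choose_spec.2, hs])
  rw [this]

end

end WDA_

open WDA_ in
theorem wda_proof (h1 : Stmt_FLG) : Stmt_WDA := by
  intro V _ _ K p Φ op v L κ hK hop hD u w hF
  obtain ⟨o1, o2, o3, o4, o5⟩ := hop v u w hF.1
  have hDl : Dl p v u w (op v u w) ≠ 0 := ((h1 V K p Φ op hK hop).2 v u w hF).2.2.2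
  have hA : TSR2.Act K p Φ v u := by
    by_cases hf : Fac p Φ v u w
    · refine ⟨op v u w, tri_of o1, fun h => hF.2 ⟨hf, fac_iff.2 h⟩⟩
    · exact ⟨w, tri_of hF.1, fun h => hf (fac_iff.2 h)⟩
  obtain ⟨l, x, b, hl, hu, hx, he, hs, hc⟩ := nbr hD hF.1 hA
  obtain ⟨l', x', b', hl', -, hx', he', hs', hc'⟩ := nbr hD o1 hA
  have hne : l ≠ l' := by
    intro h
    rcases hc with ⟨c1, c2, -⟩ | ⟨c1, c2, -⟩ <;> rcases hc' with ⟨d1, d2, -⟩ | ⟨d1, d2, -⟩
    · rw [c2, d2] at h
      exact o2 (Option.some_injective _ h).symm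
    · rw [c2, d2] at h
      exact absurd h (by simp)
    · rw [c2, d2] at h
      exact absurd h (by simp)
    · exact hF.2 ⟨c1, d1⟩
  have hpu : L.p (some u) = p u - p v := hD.pos u hu
  have hDe : Dl p v u w (op v u w) = x * x' * det3 (L.p (some u)) (L.p l) (L.p l') := by
    unfold Dl
    rw [he, he', ← hpu, det3_comb]
  have hn0 : n0 p v u w = x • crs (L.p (some u)) (L.p l) := by
    unfold n0
    rw [he, ← hpu, crs_comb_right]
  have sgn : ∀ (a c : ℝ), 0 < a → c ≠ 0 → Real.sign (a * c) = Real.sign c := by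
    intro a c ha hc
    rcases lt_or_gt_of_ne hc with h | h
    · rw [Real.sign_of_neg h, Real.sign_of_neg (mul_neg_of_pos_of_neg ha h)]
    · rw [Real.sign_of_pos h, Real.sign_of_pos (mul_pos ha h)]
  rcases hs with hs | hs
  · -- `l` is the successor
    have hs'' : L.s l' = some u := by
      rcases hs' with h | h
      · exact absurd (hs.symm.trans h) hne
      · exact h
    have hturn : L.turn l' = det3 (L.p (some u)) (L.p l) (L.p l') := by
      unfold Pg.turn
      rw [hs'', hs, det3_cyc, det3_cyc]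
    have ht0 : L.turn l' ≠ 0 := by
      rw [hturn]
      intro h
      apply hDl
      rw [hDe, h, mul_zero]
    have hsg : sg p op v u w = Real.sign (L.turn l') := by
      unfold sg
      rw [hDe, ← hturn, sgn _ _ (mul_pos hx hx') ht0]
    refine ⟨l', hl', hs'', hu, ht0, om hD hl' hs'', ?_⟩
    rcases hc with ⟨c1, c2, c3, c4⟩ | ⟨c1, c2, c3⟩
    · right
      left
      refine ⟨c1, by rw [hs, c2], ?_, hsg⟩
      unfold nE
      rw [hsg, hn0, c3, one_smul]
      unfold Pg.nor
      rw [hs]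
    · right
      right
      have hk := hD.ok.kind
      rw [c3] at hk
      rcases hk with ⟨h, -⟩ | ⟨m, hm, hC⟩
      · exact absurd h (by simp)
      · have hm' : m = none := by
          have := Option.some_injective _ hm
          exact this.symm
        subst hm'
        obtain ⟨-, q, hq, hsq, ⟨α, β, hα, hβ, hab⟩, -⟩ := hC
        have hqu : q = some u := hD.ok.inj q hq (some u) hu (by rw [hsq, hs, c2])
        rw [hqu] at hab
        refine ⟨c1, c3, Or.inr (by rw [hs, c2]), x * (β / α), by positivity, ?_⟩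
        unfold nE
        rw [hsg, hn0, c2, crs_flat _ _ _ hα hab]
        unfold Pg.nor
        rw [smul_smul, smul_smul]
        congr 1
        ring
  · -- `l` is the predecessor
    have hs'' : L.s (some u) = l' := by
      rcases hs' with h | h
      · exact h
      · exact absurd (hD.ok.inj l hl l' hl' (by rw [hs, h])) hne
    have hturn : L.turn l = - det3 (L.p (some u)) (L.p l) (L.p l') := by
      unfold Pg.turn
      rw [hs, hs'', det3_anti]
    have ht0 : L.turn l ≠ 0 := by
      rw [hturn]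
      intro h
      apply hDl
      rw [hDe, neg_eq_zero.1 h, mul_zero]
    have hsg : sg p op v u w = - Real.sign (L.turn l) := by
      unfold sg
      have : x * x' * det3 (L.p (some u)) (L.p l) (L.p l') = - (x * x' * L.turn l) := by
        rw [hturn]
        ring
      rw [hDe, this, Real.sign_neg, sgn _ _ (mul_pos hx hx') ht0]
    refine ⟨l, hl, hs, hu, ht0, om hD hl hs, ?_⟩
    have hnor : L.nor l = - crs (L.p (some u)) (L.p l) := by
      unfold Pg.nor
      rw [hs]
      exact crs_anti' _ _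
    rcases hc with ⟨c1, c2, c3, c4⟩ | ⟨c1, c2, c3⟩
    · left
      refine ⟨c1, c2, ?_, hsg⟩
      unfold nE
      rw [hsg, hn0, c3, one_smul, hnor, neg_smul, smul_neg]
    · right
      right
      refine ⟨c1, c3, Or.inl c2, x, hx, ?_⟩
      unfold nE
      rw [hsg, hn0, ← c2, hnor, neg_smul, smul_neg, smul_smul, mul_comm]

end Pool.Agent.TSR3
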