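import Pool.Agent.TSR.Base
import Pool.Agent.TSR2.StmtsV

/-!
# TSR3: R-VERTEX of MP_89ee87_gt: definitions

From the local resolution theorem for polygons (`TSR2.Stmt_VM3`) and the dictionary between
stars and polygons (`TSR2.Dic`) to the interface `TSR.Stmt_VTX`.
-/

set_option autoImplicit false

open scoped RealInnerProductSpace

namespace Pool.Agent.TSR3

open Pool.Agent.TSM Set Filter Topology
open Pool.Agent.TSR (Fac IsOpp Nf Ft Flag n0 P0 Dl eE cutf sg bT InT nE CoreMap NearV EHalf eV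
  Stmt_FLG Stmt_BTV Stmt_BTS Stmt_VTX)
open Pool.Agent.TSR2 (Dic scl)

/-! ### polygons with a field -/

section
variable {W : Type} [DecidableEq W]

/-- the directions `e` at the arms are positive on both adjacent faces -/
def PosE (L : Pg W) (e : W → E3) : Prop :=
  ∀ i ∈ L.S, 0 < ⟪L.nor i, e (L.s i)⟫ ∧ 0 < ⟪L.nor (L.s i), e (L.s i)⟫

/-- the cut-off ratios of the faces -/
def Rat (L : Pg W) (dd : W → ℝ) : Prop := ∀ i ∈ L.S, 0 < dd i ∧ dd i ≤ 1 / 4

/-- the field on the face `s j` at `a p (s j) + c p (s (s j))` -/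
noncomputable def fG (L : Pg W) (e : W → E3) (dd : W → ℝ) (j : W) (a c : ℝ) : E3 :=
  L.nor (L.s j) + cutf (dd (L.s j)) a c • (e (L.s (L.s j)) - L.nor (L.s j)) +
    cutf (dd (L.s j)) c a • (e (L.s j) - L.nor (L.s j))

/-- `b` is the field with arm directions `e` and cut-off ratios `dd` -/
def CanG (L : Pg W) (e : W → E3) (dd : W → ℝ) (b : E3 → E3) : Prop :=
  ∀ j ∈ L.S, ∀ a c : ℝ, 0 ≤ a → 0 ≤ c → 0 < a + c →
    b (a • L.p (L.s j) + c • L.p (L.s (L.s j))) = fG L e dd j a c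

/-- properties of the chamfers of a polygon -/
def PChG (L : Pg W) (e : W → E3) (τ c C : ℝ) (Ch : W → Finset ℕ) (N : ℕ → E3) : Prop :=
  ∀ i ∈ L.S, (L.turn i = 0 → Ch (L.s i) = ∅) ∧
    (L.turn i ≠ 0 → (Ch (L.s i)).Nonempty ∧
      (∀ n ∈ Ch (L.s i),
        Real.sign (L.turn i) * ⟪N n, L.p (L.s i)⟫ < 0 ∧
        0 < Real.sign (L.turn i) * ⟪N n, L.p (L.s i) + τ • L.p i⟫ ∧
        0 < Real.sign (L.turn i) * ⟪N n, L.p (L.s i) + τ • L.p (L.s (L.s i))⟫ ∧
        c ≤ ⟪N n, e (L.s i)⟫ ∧ ‖N n‖ ≤ C) ∧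
      ∀ n ∈ Ch (L.s i), ∀ n' ∈ Ch (L.s i), n ≠ n' →
        det3 (L.nor i) (N n) (N n') ≠ 0 ∧ det3 (L.nor (L.s i)) (N n) (N n') ≠ 0 ∧
        ∀ n'' ∈ Ch (L.s i), n'' ≠ n → n'' ≠ n' → det3 (N n) (N n') (N n'') ≠ 0)

/-- `D` is a resolution of the cone over `L` for the planes `A`, `B` -/
structure PRG (L : Pg W) (e : W → E3) (dd : W → ℝ) (τ R M : ℝ) (Ch : W → Finset ℕ)
    (A : W → Aff) (B : ℕ → Aff) (D : E3 → E3) : Prop where
  cont : ContinuousOn D L.cone
  good : ∀ x ∈ L.cone, GoodOn L.cone D x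
  half : ∀ x ∈ L.cone, L.Half (D x)
  bdd : ∀ x ∈ L.cone, ‖D x - x‖ ≤ M * (1 + ‖x‖)
  arm : ∀ i ∈ L.S, L.turn i ≠ 0 → ∀ a c : ℝ, 0 ≤ a → 0 ≤ c → a ≤ dd i * c → R ≤ a + c →
    (∃ s : ℝ, D (a • L.p i + c • L.p (L.s i)) = a • L.p i + c • L.p (L.s i) - s • e (L.s i)) ∧
      L.ArmEq Ch A B i (D (a • L.p i + c • L.p (L.s i)))
  arm' : ∀ i ∈ L.S, L.turn i ≠ 0 → ∀ a c : ℝ, 0 ≤ a → 0 ≤ c → a ≤ dd (L.s i) * c →
    R ≤ a + c →
    (∃ s : ℝ, D (a • L.p (L.s (L.s i)) + c • L.p (L.s i)) =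
      a • L.p (L.s (L.s i)) + c • L.p (L.s i) - s • e (L.s i)) ∧
      L.ArmEq Ch A B i (D (a • L.p (L.s (L.s i)) + c • L.p (L.s i)))
  fce : ∀ j ∈ L.S, ∀ a c : ℝ, 0 ≤ a → 0 ≤ c → τ * c ≤ a → τ * a ≤ c → R ≤ a + c →
    (∃ s : ℝ, D (a • L.p (L.s j) + c • L.p (L.s (L.s j))) =
      a • L.p (L.s j) + c • L.p (L.s (L.s j)) - s • fG L e dd j a c) ∧
      ev (A (L.s j)) (D (a • L.p (L.s j) + c • L.p (L.s (L.s j)))) = 0
  flq : ∀ m, L.X = some m → ∀ q ∈ L.S, L.s q = m → ∀ a c : ℝ, 0 ≤ a → 0 ≤ c → τ * a ≤ c →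
    R ≤ a + c → D (a • L.p q + c • L.p m) = a • L.p q + c • L.p m
  flm : ∀ m, L.X = some m → ∀ a c : ℝ, 0 ≤ a → 0 ≤ c → τ * c ≤ a → R ≤ a + c →
    D (a • L.p m + c • L.p (L.s m)) = a • L.p m + c • L.p (L.s m)

end

/-! ### the data of a vertex -/

section
variable {V : Type} [Fintype V] [DecidableEq V]

/-- the sign at the arm `u` -/
noncomputable def ωV (L : Pg (Option V)) (u : V) : ℝ := TSR2.ωS L u

open Classical in
/-- the directions at the arms of the polygon of the vertex `v` -/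
noncomputable def eP (K : Surf V) (p : V → E3) (Φ : Finset Aff) (op : V → V → V → V) (v : V)
    (L : Pg (Option V)) : Option V → E3
  | none => L.nor none
  | some u => if h : ∃ w, Flag K p Φ op v u w then
      ωV L u • eE p v u h.choose (op v u h.choose) else 0

/-- the cut-off ratios: `d` on the faces which are triangles, `1 / 8` on the flat faces -/
noncomputable def dP (L : Pg (Option V)) (d : ℝ) : Option V → ℝ
  | none => 1 / 8
  | some u => if L.s (some u) = none then 1 / 8 else d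

/-- the planes of the polygon from the planes of the star, magnified by `1 / r` -/
noncomputable def AP (p : V → E3) (v : V) (L : Pg (Option V)) (r : ℝ) (P : V → V → Aff) :
    Option V → Aff
  | none => (L.nor none, 0)
  | some u =>
    match L.s (some u) with
    | none => (L.nor (some u), 0)
    | some w => scl (p v) r (P u w)

open Classical in
/-- the offsets of the star from the offsets of the polygon -/
noncomputable def oP (L : Pg (Option V)) (o : Option V → ℝ) (u w : V) : ℝ :=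
  if some u ∈ L.S ∧ L.s (some u) = some w then o (some u)
  else if some w ∈ L.S ∧ L.s (some w) = some u then - o (some w) else 0

/-- the core map from the resolution of the cone -/
noncomputable def GP (p : V → E3) (v : V) (r : ℝ) (D : E3 → E3) (y : E3) : E3 :=
  p v + r • D (r⁻¹ • (y - p v))

end

end Pool.Agent.TSR3
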